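import Mathlib

/-!
# Linear algebra of the twisted complex structures

`a` and `b` are alternating forms on `A` and `B`, and `R : A`, `V : B`. The map
`phi (h, v) = (h - b(v, V) R, v + a(R, h) V)` preserves the form `a ⊕ b`.
-/

noncomputable section

namespace Pool.Agent.KS6_95.RK

variable {A B : Type*} [NormedAddCommGroup A] [NormedSpace ℝ A] [NormedAddCommGroup B]
  [NormedSpace ℝ B]

/-- the form `a ⊕ b` -/
def pform (a : A →L[ℝ] A →L[ℝ] ℝ) (b : B →L[ℝ] B →L[ℝ] ℝ) : (A × B) →L[ℝ] (A × B) →L[ℝ] ℝ :=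
  a.bilinearComp (ContinuousLinearMap.fst ℝ A B) (ContinuousLinearMap.fst ℝ A B) +
    b.bilinearComp (ContinuousLinearMap.snd ℝ A B) (ContinuousLinearMap.snd ℝ A B)

theorem pform_apply (a : A →L[ℝ] A →L[ℝ] ℝ) (b : B →L[ℝ] B →L[ℝ] ℝ) (x y : A × B) :
    pform a b x y = a x.1 y.1 + b x.2 y.2 := rfl

/-- the map `(h, v) ↦ (h - b(v, V) R, v + a(R, h) V)` -/
def phi (a : A →L[ℝ] A →L[ℝ] ℝ) (b : B →L[ℝ] B →L[ℝ] ℝ) (R : A) (V : B) :
    (A × B) →L[ℝ] (A × B) :=
  (ContinuousLinearMap.fst ℝ A B -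
      ((b.flip V).comp (ContinuousLinearMap.snd ℝ A B)).smulRight R).prod
    (ContinuousLinearMap.snd ℝ A B + ((a R).comp (ContinuousLinearMap.fst ℝ A B)).smulRight V)

theorem phi_apply (a : A →L[ℝ] A →L[ℝ] ℝ) (b : B →L[ℝ] B →L[ℝ] ℝ) (R : A) (V : B) (x : A × B) :
    phi a b R V x = (x.1 - (b x.2 V) • R, x.2 + (a R x.1) • V) := rfl

section

variable {a : A →L[ℝ] A →L[ℝ] ℝ} {b : B →L[ℝ] B →L[ℝ] ℝ}

theorem alt_swap (ha : ∀ x, a x x = 0) (x y : A) : a x y = - a y x := by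
  have h := ha (x + y)
  simp only [map_add, add_apply, ha] at h
  linarith

theorem phi_phi (ha : ∀ x, a x x = 0) (hb : ∀ x, b x x = 0) (R : A) (V : B) (x : A × B) :
    phi a b R V (phi a b R (-V) x) = x := by
  rw [phi_apply, phi_apply]
  ext
  · simp only [map_neg, map_add, map_smul, add_apply,
      smul_apply, neg_apply, hb, smul_eq_mul]
    module
  · simp only [map_neg, map_sub, map_smul, add_apply,
      smul_apply, neg_apply, ha, smul_eq_mul]
    module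

theorem phi_phi' (ha : ∀ x, a x x = 0) (hb : ∀ x, b x x = 0) (R : A) (V : B) (x : A × B) :
    phi a b R (-V) (phi a b R V x) = x := by
  have h := phi_phi ha hb R (-V) x
  rwa [neg_neg] at h

theorem pform_phi (ha : ∀ x, a x x = 0) (hb : ∀ x, b x x = 0) (R : A) (V : B) (x y : A × B) :
    pform a b (phi a b R V x) (phi a b R V y) = pform a b x y := by
  rw [phi_apply, phi_apply, pform_apply, pform_apply]
  have h1 : a x.1 R = - a R x.1 := alt_swap ha _ _
  have h2 : b V y.2 = - b y.2 V := alt_swap hb _ _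
  simp only [map_add, map_sub, map_smul, add_apply,
      sub_apply, smul_apply, ha, hb, smul_eq_mul, h1, h2]
  ring

/-- the twisted complex structure `phi ∘ (j ⊕ k) ∘ phi⁻¹` -/
def twist (a : A →L[ℝ] A →L[ℝ] ℝ) (b : B →L[ℝ] B →L[ℝ] ℝ) (R : A) (V : B) (j : A →L[ℝ] A)
    (k : B →L[ℝ] B) : (A × B) →L[ℝ] (A × B) :=
  (phi a b R V).comp ((j.prodMap k).comp (phi a b R (-V)))

theorem twist_apply (R : A) (V : B) (j : A →L[ℝ] A) (k : B →L[ℝ] B) (x : A × B) :
    twist a b R V j k x = phi a b R V (j (phi a b R (-V) x).1, k (phi a b R (-V) x).2) := rfl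

theorem twist_zero (R : A) (j : A →L[ℝ] A) (k : B →L[ℝ] B) (x : A × B) :
    twist a b R 0 j k x = (j x.1, k x.2) := by
  rw [twist_apply, neg_zero]
  simp only [phi_apply, map_zero, smul_zero, add_zero, zero_smul, sub_zero]

theorem twist_sq (ha : ∀ x, a x x = 0) (hb : ∀ x, b x x = 0) (R : A) (V : B) {j : A →L[ℝ] A}
    {k : B →L[ℝ] B} (hj : ∀ x, j (j x) = -x) (hk : ∀ x, k (k x) = -x) (x : A × B) :
    twist a b R V j k (twist a b R V j k x) = -x := by
  rw [twist_apply, twist_apply, phi_phi' ha hb, hj, hk]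
  have h : ((-(phi a b R (-V) x).1, -(phi a b R (-V) x).2) : A × B) = -(phi a b R (-V) x) := rfl
  rw [h, map_neg, phi_phi ha hb]

theorem pform_twist (ha : ∀ x, a x x = 0) (hb : ∀ x, b x x = 0) (R : A) (V : B) {j : A →L[ℝ] A}
    {k : B →L[ℝ] B} (hj : ∀ x y, a (j x) (j y) = a x y) (hk : ∀ x y, b (k x) (k y) = b x y)
    (x y : A × B) :
    pform a b (twist a b R V j k x) (twist a b R V j k y) = pform a b x y := by
  rw [twist_apply, twist_apply, pform_phi ha hb, pform_apply]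
  show a (j _) (j _) + b (k _) (k _) = _
  rw [hj, hk, ← pform_apply, pform_phi ha hb]

theorem pform_twist_pos (ha : ∀ x, a x x = 0) (hb : ∀ x, b x x = 0) (R : A) (V : B)
    {j : A →L[ℝ] A} {k : B →L[ℝ] B} (hj : ∀ x, x ≠ 0 → 0 < a x (j x))
    (hk : ∀ x, x ≠ 0 → 0 < b x (k x)) (x : A × B) (hx : x ≠ 0) :
    0 < pform a b x (twist a b R V j k x) := by
  set z := phi a b R (-V) x with hz
  have hz0 : z ≠ 0 := by
    intro h0
    apply hx
    rw [← phi_phi ha hb R V x, ← hz, h0, map_zero]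
  have hxz : x = phi a b R V z := (phi_phi ha hb R V x).symm
  rw [twist_apply, ← hz]
  nth_rewrite 1 [hxz]
  rw [pform_phi ha hb, pform_apply]
  show 0 < a z.1 (j z.1) + b z.2 (k z.2)
  have h1 : 0 ≤ a z.1 (j z.1) := by
    by_cases h : z.1 = 0
    · rw [h]; simp
    · exact (hj _ h).le
  have h2 : 0 ≤ b z.2 (k z.2) := by
    by_cases h : z.2 = 0
    · rw [h]; simp
    · exact (hk _ h).le
  by_cases h : z.1 = 0
  · have h' : z.2 ≠ 0 := fun h' => hz0 (Prod.ext h h')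
    have := hk _ h'
    linarith
  · have := hj _ h
    linarith

/-- the graph of `h ↦ a(R, h) V` is invariant -/
theorem twist_graph (ha : ∀ x, a x x = 0) (hb : ∀ x, b x x = 0) (R : A) (V : B) (j : A →L[ℝ] A)
    (k : B →L[ℝ] B) (h : A) :
    twist a b R V j k (h, (a R h) • V) = (j h, (a R (j h)) • V) := by
  have h1 : phi a b R (-V) (h, (a R h) • V) = (h, 0) := by
    have h2 : phi a b R V (h, 0) = (h, (a R h) • V) := by
      rw [phi_apply]
      simp
    rw [← h2, phi_phi' ha hb]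
  rw [twist_apply, h1]
  show phi a b R V (j h, k 0) = _
  rw [map_zero, phi_apply]
  simp

end

/-! ### naturality -/

variable {a a' : A →L[ℝ] A →L[ℝ] ℝ} {b b' : B →L[ℝ] B →L[ℝ] ℝ}

theorem phi_natural (S : A →L[ℝ] A) (T : A →L[ℝ] A) (S' : B →L[ℝ] B) (T' : B →L[ℝ] B)
    (hTS : ∀ x, T (S x) = x) (hTS' : ∀ x, T' (S' x) = x)
    (ha : ∀ x y, a' x y = a (T x) (T y)) (hb : ∀ x y, b' x y = b (T' x) (T' y))
    (R : A) (V : B) (x : A × B) :
    (S (phi a b R V x).1, S' (phi a b R V x).2) = phi a' b' (S R) (S' V) (S x.1, S' x.2) := by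
  rw [phi_apply, phi_apply]
  simp only [map_add, map_sub, map_smul, ha, hb, hTS, hTS']

theorem twist_natural (S : A →L[ℝ] A) (T : A →L[ℝ] A) (S' : B →L[ℝ] B) (T' : B →L[ℝ] B)
    (hTS : ∀ x, T (S x) = x) (hTS' : ∀ x, T' (S' x) = x)
    (hST : ∀ x, S (T x) = x) (hST' : ∀ x, S' (T' x) = x)
    (ha : ∀ x y, a' x y = a (T x) (T y)) (hb : ∀ x y, b' x y = b (T' x) (T' y))
    (R : A) (V : B) (j : A →L[ℝ] A) (k : B →L[ℝ] B) (x : A × B) :
    (S (twist a b R V j k (T x.1, T' x.2)).1, S' (twist a b R V j k (T x.1, T' x.2)).2)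
      = twist a' b' (S R) (S' V) (S.comp (j.comp T)) (S'.comp (k.comp T')) x := by
  rw [twist_apply, phi_natural S T S' T' hTS hTS' ha hb, twist_apply]
  have h1 := phi_natural S T S' T' hTS hTS' ha hb R (-V) (T x.1, T' x.2)
  have h2 : ((S (T x.1), S' (T' x.2)) : A × B) = x := by rw [hST, hST']
  simp only [h2] at h1
  rw [map_neg] at h1
  rw [← h1]
  simp only [ContinuousLinearMap.comp_apply, hTS, hTS']

/-! ### smooth dependence -/

theorem contDiff_phi [FiniteDimensional ℝ A] [FiniteDimensional ℝ B] :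
    ContDiff ℝ ⊤ (fun p : (A →L[ℝ] A →L[ℝ] ℝ) × (B →L[ℝ] B →L[ℝ] ℝ) × A × B =>
      phi p.1 p.2.1 p.2.2.1 p.2.2.2) := by
  rw [contDiff_clm_apply_iff]
  intro x
  simp only [phi_apply]
  have c1 : ContDiff ℝ ⊤ (fun p : (A →L[ℝ] A →L[ℝ] ℝ) × (B →L[ℝ] B →L[ℝ] ℝ) × A × B =>
      p.2.1 x.2 p.2.2.2) :=
    ((contDiff_fst.comp contDiff_snd).clm_apply contDiff_const).clm_apply
      (contDiff_snd.comp (contDiff_snd.comp contDiff_snd))
  have c2 : ContDiff ℝ ⊤ (fun p : (A →L[ℝ] A →L[ℝ] ℝ) × (B →L[ℝ] B →L[ℝ] ℝ) × A × B =>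
      p.1 p.2.2.1 x.1) :=
    (contDiff_fst.clm_apply (contDiff_fst.comp (contDiff_snd.comp contDiff_snd))).clm_apply
      contDiff_const
  exact (contDiff_const.sub (c1.smul (contDiff_fst.comp (contDiff_snd.comp contDiff_snd)))).prodMk
    (contDiff_const.add (c2.smul (contDiff_snd.comp (contDiff_snd.comp contDiff_snd))))

end Pool.Agent.KS6_95.RK
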