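import Mathlib
import Pool.Graph.R_seed8.Helper206.Rat.Defs
import Pool.Agent.KS6_95.RK.Lin

/-!
# Charts of products, the product of two symplectic manifolds
-/

open scoped Manifold ContDiff Topology
open Metric Set Bundle
open Pool.Agent.Helper206.Cover (BilinField EndoField formInChart endoInChart)
open Pool.Agent.Helper206.Rat (SymplecticForm AlmostComplex IsCompatible)

noncomputable section

namespace Pool.Agent.KS6_95.RK

section One

variable {E : Type*} [NormedAddCommGroup E] [NormedSpace ℝ E] {H : Type*} [TopologicalSpace H]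
  {I : ModelWithCorners ℝ E H} {X : Type*} [TopologicalSpace X] [ChartedSpace H X]

variable (I) in
/-- the differential of the inverse of the preferred chart at `x₀` -/
def Tc (x₀ : X) (e : E) : E →L[ℝ] E := mfderiv 𝓘(ℝ, E) I (extChartAt I x₀).symm e

variable (I) in
/-- the differential of the preferred chart at `x₀` -/
def Sc (x₀ x : X) : E →L[ℝ] E := mvfderiv I (extChartAt I x₀) x

theorem formInChart_apply (B : BilinField I X) (x₀ : X) (e v w : E) :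
    formInChart B x₀ e v w =
      (B ((extChartAt I x₀).symm e) : E →L[ℝ] E →L[ℝ] ℝ) (Tc I x₀ e v) (Tc I x₀ e w) := rfl

theorem endoInChart_apply (A : EndoField I X) (x₀ : X) (e v : E) :
    endoInChart A x₀ e v = Sc I x₀ ((extChartAt I x₀).symm e)
      ((A ((extChartAt I x₀).symm e) : E →L[ℝ] E) (Tc I x₀ e v)) := rfl

variable [I.Boundaryless] [IsManifold I ∞ X]

theorem Sc_Tc (x₀ : X) {e : E} (he : e ∈ (extChartAt I x₀).target) (v : E) :
    Sc I x₀ ((extChartAt I x₀).symm e) (Tc I x₀ e v) = v := by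
  have : IsManifold I 1 X := .of_le (n := ∞) (by simp)
  have h := mfderiv_extChartAt_comp_mfderivWithin_extChartAt_symm (I := I) he
  rw [ModelWithCorners.range_eq_univ, mfderivWithin_univ] at h
  exact congrArg (fun L => L v) h

theorem Tc_Sc (x₀ : X) {e : E} (he : e ∈ (extChartAt I x₀).target) (v : E) :
    Tc I x₀ e (Sc I x₀ ((extChartAt I x₀).symm e) v) = v := by
  have : IsManifold I 1 X := .of_le (n := ∞) (by simp)
  have h := mfderivWithin_extChartAt_symm_comp_mfderiv_extChartAt (I := I) he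
  rw [ModelWithCorners.range_eq_univ, mfderivWithin_univ] at h
  exact congrArg (fun L => L v) h

theorem Tc_injective (x₀ : X) {e : E} (he : e ∈ (extChartAt I x₀).target) :
    Function.Injective (Tc I x₀ e) := fun v w h => by
  rw [← Sc_Tc x₀ he v, ← Sc_Tc x₀ he w, h]

omit [I.Boundaryless] [IsManifold I ∞ X] in
theorem isOpen_target' [I.Boundaryless] (x₀ : X) : IsOpen (extChartAt I x₀).target :=
  isOpen_extChartAt_target x₀

theorem symm_contMDiffAt (x₀ : X) {e : E} (he : e ∈ (extChartAt I x₀).target) :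
    ContMDiffAt 𝓘(ℝ, E) I ∞ (extChartAt I x₀).symm e :=
  (contMDiffOn_extChartAt_symm (I := I) (n := ∞) x₀).contMDiffAt
    ((isOpen_extChartAt_target x₀).mem_nhds he)

theorem hasMFDerivAt_symm (x₀ : X) {e : E} (he : e ∈ (extChartAt I x₀).target) :
    HasMFDerivAt 𝓘(ℝ, E) I (extChartAt I x₀).symm e (Tc I x₀ e : E →L[ℝ] E) :=
  ((symm_contMDiffAt x₀ he).mdifferentiableAt (by simp)).hasMFDerivAt

theorem hasMFDerivAt_chart (x₀ : X) {x : X} (hx : x ∈ (extChartAt I x₀).source) :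
    HasMFDerivAt I 𝓘(ℝ, E) (extChartAt I x₀) x (Sc I x₀ x : E →L[ℝ] E) := by
  have : IsManifold I 1 X := .of_le (n := ∞) (by simp)
  exact (mdifferentiableAt_extChartAt (by rwa [extChartAt_source] at hx)).hasMFDerivAt

end One

section Pure

variable {E₁ : Type*} [NormedAddCommGroup E₁] [NormedSpace ℝ E₁]
  {E₂ : Type*} [NormedAddCommGroup E₂] [NormedSpace ℝ E₂]
  {G : Type*} [NormedAddCommGroup G] [NormedSpace ℝ G]

theorem contDiffOn_pform [FiniteDimensional ℝ E₁] [FiniteDimensional ℝ E₂] {n : WithTop ℕ∞}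
    {f : G → E₁ →L[ℝ] E₁ →L[ℝ] ℝ} {g : G → E₂ →L[ℝ] E₂ →L[ℝ] ℝ} {s : Set G}
    (hf : ContDiffOn ℝ n f s) (hg : ContDiffOn ℝ n g s) :
    ContDiffOn ℝ n (fun e => pform (f e) (g e)) s := by
  rw [contDiffOn_clm_apply]
  intro x
  rw [contDiffOn_clm_apply]
  intro y
  simp only [pform_apply]
  exact ((hf.clm_apply contDiffOn_const).clm_apply contDiffOn_const).add
    ((hg.clm_apply contDiffOn_const).clm_apply contDiffOn_const)

theorem contDiffOn_fst' {n : WithTop ℕ∞} {f : E₁ → G} {s : Set E₁} (hf : ContDiffOn ℝ n f s)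
    {t : Set (E₁ × E₂)} (h : ∀ e ∈ t, e.1 ∈ s) : ContDiffOn ℝ n (fun e : E₁ × E₂ => f e.1) t :=
  hf.comp contDiff_fst.contDiffOn h

theorem contDiffOn_snd' {n : WithTop ℕ∞} {f : E₂ → G} {s : Set E₂} (hf : ContDiffOn ℝ n f s)
    {t : Set (E₁ × E₂)} (h : ∀ e ∈ t, e.2 ∈ s) : ContDiffOn ℝ n (fun e : E₁ × E₂ => f e.2) t :=
  hf.comp contDiff_snd.contDiffOn h

theorem hasFDerivAt_comp_fst {f : E₁ → G} {e : E₁ × E₂} (hf : DifferentiableAt ℝ f e.1) :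
    HasFDerivAt (fun e : E₁ × E₂ => f e.1)
      ((fderiv ℝ f e.1).comp (ContinuousLinearMap.fst ℝ E₁ E₂)) e :=
  hf.hasFDerivAt.comp e hasFDerivAt_fst

theorem hasFDerivAt_comp_snd {f : E₂ → G} {e : E₁ × E₂} (hf : DifferentiableAt ℝ f e.2) :
    HasFDerivAt (fun e : E₁ × E₂ => f e.2)
      ((fderiv ℝ f e.2).comp (ContinuousLinearMap.snd ℝ E₁ E₂)) e :=
  hf.hasFDerivAt.comp e hasFDerivAt_snd

theorem hasFDerivAt_form_apply {f : G → E₁ →L[ℝ] E₁ →L[ℝ] ℝ} {x : G}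
    (hf : DifferentiableAt ℝ f x) (b c : E₁) :
    HasFDerivAt (fun y => f y b c) (((fderiv ℝ f x).flip b).flip c) x := by
  have h1 : HasFDerivAt (fun y => f y b) ((fderiv ℝ f x).flip b) x := by
    have h := hf.hasFDerivAt.clm_apply (hasFDerivAt_const b x)
    refine h.congr_fderiv ?_
    ext v
    simp
  have h := h1.clm_apply (hasFDerivAt_const c x)
  refine h.congr_fderiv ?_
  ext v
  simp

theorem fderiv_form_apply {f : G → E₁ →L[ℝ] E₁ →L[ℝ] ℝ} {x : G}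
    (hf : DifferentiableAt ℝ f x) (a : G) (b c : E₁) :
    fderiv ℝ f x a b c = fderiv ℝ (fun y => f y b c) x a := by
  rw [(hasFDerivAt_form_apply hf b c).fderiv]
  rfl

theorem fderiv_pform_apply [FiniteDimensional ℝ E₁] [FiniteDimensional ℝ E₂]
    {f : E₁ → E₁ →L[ℝ] E₁ →L[ℝ] ℝ} {g : E₂ → E₂ →L[ℝ] E₂ →L[ℝ] ℝ} {e : E₁ × E₂}
    {s : Set E₁} {t : Set E₂} (hs : IsOpen s) (ht : IsOpen t) (hes : e.1 ∈ s) (het : e.2 ∈ t)
    (hf : ContDiffOn ℝ ∞ f s) (hg : ContDiffOn ℝ ∞ g t) (a b c : E₁ × E₂) :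
    fderiv ℝ (fun e : E₁ × E₂ => pform (f e.1) (g e.2)) e a b c =
      fderiv ℝ f e.1 a.1 b.1 c.1 + fderiv ℝ g e.2 a.2 b.2 c.2 := by
  have hf' : DifferentiableAt ℝ f e.1 :=
    (hf.contDiffAt (hs.mem_nhds hes)).differentiableAt (by simp)
  have hg' : DifferentiableAt ℝ g e.2 :=
    (hg.contDiffAt (ht.mem_nhds het)).differentiableAt (by simp)
  have d1 := hasFDerivAt_comp_fst (G := E₁ →L[ℝ] E₁ →L[ℝ] ℝ) (E₂ := E₂) (e := e) hf'
  have d2 := hasFDerivAt_comp_snd (G := E₂ →L[ℝ] E₂ →L[ℝ] ℝ) (E₁ := E₁) (e := e) hg'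
  have d3 : DifferentiableAt ℝ (fun e : E₁ × E₂ => pform (f e.1) (g e.2)) e := by
    have h1 : ContDiffOn ℝ ∞ (fun e : E₁ × E₂ => f e.1) (s ×ˢ t) :=
      contDiffOn_fst' (G := E₁ →L[ℝ] E₁ →L[ℝ] ℝ) hf fun e he => he.1
    have h2 : ContDiffOn ℝ ∞ (fun e : E₁ × E₂ => g e.2) (s ×ˢ t) :=
      contDiffOn_snd' (G := E₂ →L[ℝ] E₂ →L[ℝ] ℝ) hg fun e he => he.2
    exact ((contDiffOn_pform h1 h2).contDiffAt
      ((hs.prod ht).mem_nhds ⟨hes, het⟩)).differentiableAt (by simp)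
  rw [fderiv_form_apply d3]
  simp only [pform_apply]
  have e1 := hasFDerivAt_form_apply d1.differentiableAt b.1 c.1
  have e2 := hasFDerivAt_form_apply d2.differentiableAt b.2 c.2
  rw [(e1.fun_add e2).fderiv, d1.fderiv, d2.fderiv]
  rfl

end Pure

section Two

variable {E₁ : Type*} [NormedAddCommGroup E₁] [NormedSpace ℝ E₁] {H₁ : Type*} [TopologicalSpace H₁]
  {I₁ : ModelWithCorners ℝ E₁ H₁} {X₁ : Type*} [TopologicalSpace X₁] [ChartedSpace H₁ X₁]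
  {E₂ : Type*} [NormedAddCommGroup E₂] [NormedSpace ℝ E₂] {H₂ : Type*} [TopologicalSpace H₂]
  {I₂ : ModelWithCorners ℝ E₂ H₂} {X₂ : Type*} [TopologicalSpace X₂] [ChartedSpace H₂ X₂]

theorem chart_symm_prod (x₀ : X₁ × X₂) (e : E₁ × E₂) :
    (extChartAt (I₁.prod I₂) x₀).symm e =
      ((extChartAt I₁ x₀.1).symm e.1, (extChartAt I₂ x₀.2).symm e.2) := by
  rw [extChartAt_prod, PartialEquiv.prod_symm, PartialEquiv.prod_coe]

theorem chart_prod (x₀ x : X₁ × X₂) :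
    extChartAt (I₁.prod I₂) x₀ x = (extChartAt I₁ x₀.1 x.1, extChartAt I₂ x₀.2 x.2) := by
  rw [extChartAt_prod, PartialEquiv.prod_coe]

theorem mem_target_prod (x₀ : X₁ × X₂) (e : E₁ × E₂) :
    e ∈ (extChartAt (I₁.prod I₂) x₀).target ↔
      e.1 ∈ (extChartAt I₁ x₀.1).target ∧ e.2 ∈ (extChartAt I₂ x₀.2).target := by
  rw [extChartAt_prod, PartialEquiv.prod_target, Set.mem_prod]

theorem mem_source_prod (x₀ x : X₁ × X₂) :
    x ∈ (extChartAt (I₁.prod I₂) x₀).source ↔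
      x.1 ∈ (extChartAt I₁ x₀.1).source ∧ x.2 ∈ (extChartAt I₂ x₀.2).source := by
  rw [extChartAt_prod, PartialEquiv.prod_source, Set.mem_prod]

variable [I₁.Boundaryless] [IsManifold I₁ ∞ X₁] [I₂.Boundaryless] [IsManifold I₂ ∞ X₂]

theorem Tc_prod (x₀ : X₁ × X₂) {e : E₁ × E₂} (he : e ∈ (extChartAt (I₁.prod I₂) x₀).target)
    (v : E₁ × E₂) :
    Tc (I₁.prod I₂) x₀ e v = (Tc I₁ x₀.1 e.1 v.1, Tc I₂ x₀.2 e.2 v.2) := by
  rw [mem_target_prod] at he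
  have f1 : HasMFDerivAt 𝓘(ℝ, E₁ × E₂) 𝓘(ℝ, E₁) (fun y : E₁ × E₂ => y.1) e
      (ContinuousLinearMap.fst ℝ E₁ E₂) := hasFDerivAt_fst.hasMFDerivAt
  have f2 : HasMFDerivAt 𝓘(ℝ, E₁ × E₂) 𝓘(ℝ, E₂) (fun y : E₁ × E₂ => y.2) e
      (ContinuousLinearMap.snd ℝ E₁ E₂) := hasFDerivAt_snd.hasMFDerivAt
  have g1 := (hasMFDerivAt_symm (I := I₁) x₀.1 he.1).comp e f1
  have g2 := (hasMFDerivAt_symm (I := I₂) x₀.2 he.2).comp e f2
  have g := g1.prodMk g2
  have hfun : ((extChartAt (I₁.prod I₂) x₀).symm : E₁ × E₂ → X₁ × X₂) = fun y =>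
      ((extChartAt I₁ x₀.1).symm y.1, (extChartAt I₂ x₀.2).symm y.2) :=
    funext (chart_symm_prod x₀)
  have hg := g.mfderiv
  have h1 : Tc (I₁.prod I₂) x₀ e = mfderiv 𝓘(ℝ, E₁ × E₂) (I₁.prod I₂)
      (fun y : E₁ × E₂ => ((extChartAt I₁ x₀.1).symm y.1, (extChartAt I₂ x₀.2).symm y.2)) e := by
    unfold Tc
    rw [hfun]
  rw [h1]
  exact congrArg (fun L : E₁ × E₂ →L[ℝ] E₁ × E₂ => L v) hg

theorem Sc_prod (x₀ : X₁ × X₂) {x : X₁ × X₂} (hx : x ∈ (extChartAt (I₁.prod I₂) x₀).source)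
    (v : E₁ × E₂) :
    Sc (I₁.prod I₂) x₀ x v = (Sc I₁ x₀.1 x.1 v.1, Sc I₂ x₀.2 x.2 v.2) := by
  rw [mem_source_prod] at hx
  have f1 : HasMFDerivAt (I₁.prod I₂) I₁ (fun y : X₁ × X₂ => y.1) x
      (ContinuousLinearMap.fst ℝ E₁ E₂) := hasMFDerivAt_fst x
  have f2 : HasMFDerivAt (I₁.prod I₂) I₂ (fun y : X₁ × X₂ => y.2) x
      (ContinuousLinearMap.snd ℝ E₁ E₂) := hasMFDerivAt_snd x
  have g1 := (hasMFDerivAt_chart (I := I₁) x₀.1 hx.1).comp x f1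
  have g2 := (hasMFDerivAt_chart (I := I₂) x₀.2 hx.2).comp x f2
  have g : HasMFDerivAt (I₁.prod I₂) 𝓘(ℝ, E₁ × E₂)
      (fun y : X₁ × X₂ => (extChartAt I₁ x₀.1 y.1, extChartAt I₂ x₀.2 y.2)) x
      (ContinuousLinearMap.prod ((Sc I₁ x₀.1 x.1).comp (ContinuousLinearMap.fst ℝ E₁ E₂))
        ((Sc I₂ x₀.2 x.2).comp (ContinuousLinearMap.snd ℝ E₁ E₂))) :=
    ⟨g1.1.prodMk g2.1, g1.2.prodMk g2.2⟩
  have hfun : (extChartAt (I₁.prod I₂) x₀ : X₁ × X₂ → E₁ × E₂) = fun y =>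
      (extChartAt I₁ x₀.1 y.1, extChartAt I₂ x₀.2 y.2) :=
    funext (chart_prod x₀)
  have hg := g.mfderiv
  have h1 : Sc (I₁.prod I₂) x₀ x = mfderiv (I₁.prod I₂) 𝓘(ℝ, E₁ × E₂)
      (fun y : X₁ × X₂ => (extChartAt I₁ x₀.1 y.1, extChartAt I₂ x₀.2 y.2)) x := by
    unfold Sc
    rw [hfun]
    rfl
  rw [h1]
  exact congrArg (fun L : E₁ × E₂ →L[ℝ] E₁ × E₂ => L v) hg

/-- the product of two fields of bilinear forms -/
def prodField (B₁ : BilinField I₁ X₁) (B₂ : BilinField I₂ X₂) :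
    BilinField (I₁.prod I₂) (X₁ × X₂) := fun x =>
  (pform (A := E₁) (B := E₂) (B₁ x.1) (B₂ x.2) : E₁ × E₂ →L[ℝ] E₁ × E₂ →L[ℝ] ℝ)

theorem formInChart_prodField (B₁ : BilinField I₁ X₁) (B₂ : BilinField I₂ X₂) (x₀ : X₁ × X₂)
    {e : E₁ × E₂} (he : e ∈ (extChartAt (I₁.prod I₂) x₀).target) :
    formInChart (prodField B₁ B₂) x₀ e =
      pform (formInChart B₁ x₀.1 e.1) (formInChart B₂ x₀.2 e.2) := by
  refine ContinuousLinearMap.ext fun v => ContinuousLinearMap.ext fun w => ?_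
  rw [formInChart_apply, pform_apply, formInChart_apply, formInChart_apply, Tc_prod x₀ he,
    Tc_prod x₀ he]
  have key : ∀ (x : X₁ × X₂), x = ((extChartAt I₁ x₀.1).symm e.1, (extChartAt I₂ x₀.2).symm e.2) →
      (prodField B₁ B₂ x : E₁ × E₂ →L[ℝ] E₁ × E₂ →L[ℝ] ℝ) (Tc I₁ x₀.1 e.1 v.1, Tc I₂ x₀.2 e.2 v.2)
        (Tc I₁ x₀.1 e.1 w.1, Tc I₂ x₀.2 e.2 w.2) =
      (B₁ ((extChartAt I₁ x₀.1).symm e.1) : E₁ →L[ℝ] E₁ →L[ℝ] ℝ) (Tc I₁ x₀.1 e.1 v.1)
        (Tc I₁ x₀.1 e.1 w.1) +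
      (B₂ ((extChartAt I₂ x₀.2).symm e.2) : E₂ →L[ℝ] E₂ →L[ℝ] ℝ) (Tc I₂ x₀.2 e.2 v.2)
        (Tc I₂ x₀.2 e.2 w.2) := by
    rintro x rfl
    rfl
  exact key _ (chart_symm_prod x₀ e)

/-- the product of two symplectic forms -/
def prodSymp [FiniteDimensional ℝ E₁] [FiniteDimensional ℝ E₂] (Ω₁ : SymplecticForm I₁ X₁)
    (Ω₂ : SymplecticForm I₂ X₂) : SymplecticForm (I₁.prod I₂) (X₁ × X₂) where
  form := prodField Ω₁.form Ω₂.form
  alt := by
    intro x v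
    show (Ω₁.form x.1 v.1 v.1 : ℝ) + Ω₂.form x.2 v.2 v.2 = 0
    rw [Ω₁.alt, Ω₂.alt, add_zero]
  smooth := by
    intro x₀
    have h1 : ContDiffOn ℝ ∞ (fun e : E₁ × E₂ => pform (formInChart Ω₁.form x₀.1 e.1)
        (formInChart Ω₂.form x₀.2 e.2)) (extChartAt (I₁.prod I₂) x₀).target := by
      have c1 : ContDiffOn ℝ ∞ (fun e : E₁ × E₂ => formInChart Ω₁.form x₀.1 e.1)
          (extChartAt (I₁.prod I₂) x₀).target :=
        contDiffOn_fst' (Ω₁.smooth x₀.1) fun e he => ((mem_target_prod x₀ e).1 he).1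
      have c2 : ContDiffOn ℝ ∞ (fun e : E₁ × E₂ => formInChart Ω₂.form x₀.2 e.2)
          (extChartAt (I₁.prod I₂) x₀).target :=
        contDiffOn_snd' (Ω₂.smooth x₀.2) fun e he => ((mem_target_prod x₀ e).1 he).2
      exact contDiffOn_pform c1 c2
    exact h1.congr fun e he => formInChart_prodField _ _ x₀ he
  closed := by
    intro x₀ e he a b c
    have he' := (mem_target_prod x₀ e).1 he
    have heq : formInChart (prodField Ω₁.form Ω₂.form) x₀ =ᶠ[𝓝 e]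
        fun e : E₁ × E₂ => pform (formInChart Ω₁.form x₀.1 e.1) (formInChart Ω₂.form x₀.2 e.2) := by
      filter_upwards [(isOpen_extChartAt_target (I := I₁.prod I₂) x₀).mem_nhds he] with e' he'
      exact formInChart_prodField _ _ x₀ he'
    have hD : ∀ a b c : E₁ × E₂, fderiv ℝ (formInChart (prodField Ω₁.form Ω₂.form) x₀) e a b c =
        fderiv ℝ (formInChart Ω₁.form x₀.1) e.1 a.1 b.1 c.1 +
        fderiv ℝ (formInChart Ω₂.form x₀.2) e.2 a.2 b.2 c.2 := by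
      intro a b c
      rw [heq.fderiv_eq]
      exact fderiv_pform_apply (isOpen_extChartAt_target x₀.1) (isOpen_extChartAt_target x₀.2)
        he'.1 he'.2 (Ω₁.smooth x₀.1) (Ω₂.smooth x₀.2) a b c
    rw [hD, hD, hD]
    have q1 := Ω₁.closed x₀.1 e.1 he'.1 a.1 b.1 c.1
    have q2 := Ω₂.closed x₀.2 e.2 he'.2 a.2 b.2 c.2
    linarith
  nondegenerate := by
    intro x v hv
    have h1 : (v : E₁ × E₂).1 = 0 := by
      apply Ω₁.nondegenerate x.1
      intro w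
      have := hv ((w, 0) : E₁ × E₂)
      have h2 : (Ω₁.form x.1 v.1 w : ℝ) + Ω₂.form x.2 v.2 0 = 0 := this
      rw [map_zero, add_zero] at h2
      exact h2
    have h2 : (v : E₁ × E₂).2 = 0 := by
      apply Ω₂.nondegenerate x.2
      intro w
      have := hv ((0, w) : E₁ × E₂)
      have h2 : (Ω₁.form x.1 v.1 0 : ℝ) + Ω₂.form x.2 v.2 w = 0 := this
      rw [map_zero, zero_add] at h2
      exact h2
    exact Prod.ext h1 h2

end Two

end Pool.Agent.KS6_95.RK
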