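import Mathlib
import Pool.Graph.R_seed8.Helper206.Rat.Geometry
import Pool.Agent.KS6_95.RK.Prod

/-!
# The round sphere: area form, complex structure, rotation field, height
-/

open scoped Manifold ContDiff Topology
open Metric Set Bundle
open Pool.Agent.Helper206.Cover
open Pool.Agent.Helper206.Rat (SymplecticForm AlmostComplex IsCompatible contDiff_Pc)

noncomputable section

namespace Pool.Agent.KS6_95.RK

attribute [local instance] factR3

/-- the form `(a, b) ↦ ⟨z, a × b⟩` -/
def triL (z : R3) : R3 →L[ℝ] R3 →L[ℝ] ℝ :=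
  ((ContinuousLinearMap.compL ℝ R3 R3 ℝ) (innerSL ℝ z)).comp cj_crossB

theorem triL_apply (z a b : R3) : triL z a b = inner ℝ z (cross a b) := rfl

theorem tri_self (z a : R3) : inner ℝ z (cross a a) = (0 : ℝ) := by
  rw [crx_self, inner_zero_right]

/-- the area form of the sphere -/
def areaForm : BilinField (𝓡 2) P1 := fun z =>
  ((triL (z : R3)).bilinearComp (dInc z) (dInc z) : E2 →L[ℝ] E2 →L[ℝ] ℝ)

theorem areaForm_apply (z : P1) (v w : TangentSpace (𝓡 2) z) :
    areaForm z v w = inner ℝ (z : R3) (cross (dInc z v) (dInc z w)) := rfl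

/-- forms on the plane are closed -/
theorem closed_two {f : E2 → E2 →L[ℝ] E2 →L[ℝ] ℝ} {y : E2} (hf : DifferentiableAt ℝ f y)
    (halt : ∀ y v, f y v v = 0) (a b c : E2) :
    fderiv ℝ f y a b c + fderiv ℝ f y b c a + fderiv ℝ f y c a b = 0 := by
  have h0 : ∀ x v : E2, fderiv ℝ f y x v v = 0 := by
    intro x v
    rw [fderiv_form_apply hf]
    have : (fun y => f y v v) = fun _ => (0 : ℝ) := funext fun y => halt y v
    rw [this]
    simp
  set D := fderiv ℝ f y with hD
  have hsw : ∀ x v w : E2, D x v w = - D x w v := fun x v w => alt_swap (a := D x) (h0 x) v w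
  set e0 : E2 := EuclideanSpace.single 0 1 with he0
  set e1 : E2 := EuclideanSpace.single 1 1 with he1
  have hexp : ∀ v : E2, v = v 0 • e0 + v 1 • e1 := by
    intro v
    ext i
    fin_cases i <;> simp [he0, he1]
  have key : ∀ x v w : E2, D x v w = (v 0 * w 1 - v 1 * w 0) * (x 0 * D e0 e0 e1 + x 1 * D e1 e0 e1) := by
    intro x v w
    have h1 : D x v w = (v 0 * w 1 - v 1 * w 0) * D x e0 e1 := by
      conv_lhs => rw [hexp v, hexp w]
      simp only [map_add, map_smul, add_apply, smul_apply, smul_eq_mul, h0, hsw x e1 e0]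
      ring
    have h2 : D x e0 e1 = x 0 * D e0 e0 e1 + x 1 * D e1 e0 e1 := by
      conv_lhs => rw [hexp x]
      simp only [map_add, map_smul, add_apply, smul_apply, smul_eq_mul]
    rw [h1, h2]
  rw [key a b c, key b c a, key c a b]
  ring

theorem formInChart_area (z₀ : P1) (y : E2) (v w : E2) :
    formInChart areaForm z₀ y v w =
      inner ℝ (Zc z₀ y) (cross (fderiv ℝ (Zc z₀) y v) (fderiv ℝ (Zc z₀) y w)) := by
  have h1 := dInc_mfderiv_symm z₀ y v
  have h2 := dInc_mfderiv_symm z₀ y w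
  show inner ℝ (((extChartAt (𝓡 2) z₀).symm y : P1) : R3)
    (cross (dInc ((extChartAt (𝓡 2) z₀).symm y)
      (mfderiv 𝓘(ℝ, E2) (𝓡 2) (extChartAt (𝓡 2) z₀).symm y v))
      (dInc ((extChartAt (𝓡 2) z₀).symm y)
      (mfderiv 𝓘(ℝ, E2) (𝓡 2) (extChartAt (𝓡 2) z₀).symm y w))) = _
  rw [h1, h2]
  rfl

theorem contDiff_formInChart_area (z₀ : P1) : ContDiff ℝ ∞ (formInChart areaForm z₀) := by
  rw [contDiff_clm_apply_iff]
  intro v
  rw [contDiff_clm_apply_iff]
  intro w
  have : (fun y => formInChart areaForm z₀ y v w) = fun y =>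
      inner ℝ (Zc z₀ y) (cross (fderiv ℝ (Zc z₀) y v) (fderiv ℝ (Zc z₀) y w)) :=
    funext fun y => formInChart_area z₀ y v w
  rw [this]
  have hd : ContDiff ℝ ∞ (fderiv ℝ (Zc z₀)) := (contDiff_Zc z₀).fderiv_right (by simp)
  exact (contDiff_Zc z₀).inner ℝ (contDiff_cross (hd.clm_apply contDiff_const)
    (hd.clm_apply contDiff_const))

theorem area_pos_aux (z v : R3) (hz : inner ℝ z z = (1 : ℝ)) (hv : inner ℝ z v = (0 : ℝ))
    (hne : v ≠ 0) : 0 < (inner ℝ z (cross v (cross z v)) : ℝ) := by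
  have h1 : (inner ℝ z (cross v (cross z v)) : ℝ) = inner ℝ v v := by
    rw [formW_pos_dot] at hz hv ⊢
    rw [formW_pos_dot]
    simp only [cross]
    simp only [PiLp.toLp_apply, Matrix.cons_val_zero, Matrix.cons_val_one, Matrix.cons_val]
    linear_combination (v 0 ^ 2 + v 1 ^ 2 + v 2 ^ 2) * hz
      - (z 0 * v 0 + z 1 * v 1 + z 2 * v 2) * hv
  rw [h1]
  exact real_inner_self_pos.2 hne

/-- the area form of the sphere as a symplectic form -/
def areaS : SymplecticForm (𝓡 2) P1 where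
  form := areaForm
  alt := by
    intro z v
    rw [areaForm_apply, tri_self]
  smooth := fun z₀ => (contDiff_formInChart_area z₀).contDiffOn
  closed := by
    intro z₀ y _ a b c
    refine closed_two ((contDiff_formInChart_area z₀).differentiable (by simp) y) ?_ a b c
    intro y v
    rw [formInChart_area, tri_self]
  nondegenerate := by
    intro z v hv
    by_contra hne
    have h1 := hv (jP1 z v)
    rw [areaForm_apply, dInc_jP1] at h1
    have h2 : dInc z v ≠ 0 := fun h => hne (dInc_injective z (h.trans (map_zero _).symm))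
    exact (area_pos_aux _ _ (inner_self_P1 z) (inner_dInc z v) h2).ne' h1

theorem endoInChart_jP1 (z₀ : P1) (y v : E2) :
    endoInChart jP1 z₀ y v = Pc z₀ y (cross (Zc z₀ y) (fderiv ℝ (Zc z₀) y v)) := by
  have h1 := dInc_mfderiv_symm z₀ y v
  show mvfderiv (𝓡 2) (extChartAt (𝓡 2) z₀) ((extChartAt (𝓡 2) z₀).symm y)
    (tanProj ((extChartAt (𝓡 2) z₀).symm y) (cross (((extChartAt (𝓡 2) z₀).symm y : P1) : R3)
      (dInc ((extChartAt (𝓡 2) z₀).symm y)
      (mfderiv 𝓘(ℝ, E2) (𝓡 2) (extChartAt (𝓡 2) z₀).symm y v)))) = _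
  rw [h1]
  rfl

/-- the complex structure of the sphere -/
def jS : AlmostComplex (𝓡 2) P1 where
  J := jP1
  smooth := by
    intro z₀
    rw [contDiffOn_clm_apply]
    intro v
    have : (fun y => endoInChart jP1 z₀ y v) = fun y =>
        Pc z₀ y (cross (Zc z₀ y) (fderiv ℝ (Zc z₀) y v)) := funext fun y => endoInChart_jP1 z₀ y v
    rw [this]
    have hd : ContDiff ℝ ∞ (fderiv ℝ (Zc z₀)) := (contDiff_Zc z₀).fderiv_right (by simp)
    exact ((contDiff_Pc z₀).clm_apply (contDiff_cross (contDiff_Zc z₀)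
      (hd.clm_apply contDiff_const))).contDiffOn
  sq := by
    intro z v
    apply dInc_injective z
    rw [dInc_jP1, dInc_jP1, crx_crx _ (inner_self_P1 z), inner_dInc, map_neg]
    simp

theorem areaS_jS : IsCompatible areaS jS := by
  constructor
  · intro z v w
    show areaForm z (jP1 z v) (jP1 z w) = areaForm z v w
    rw [areaForm_apply, areaForm_apply, dInc_jP1, dInc_jP1]
    have hz := inner_self_P1 z
    have hv := inner_dInc z v
    have hw := inner_dInc z w
    generalize dInc z v = v' at hv ⊢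
    generalize dInc z w = w' at hw ⊢
    generalize (z : R3) = z' at hz hv hw ⊢
    rw [formW_pos_dot] at hz hv hw
    rw [formW_pos_dot, formW_pos_dot]
    simp only [cross]
    simp only [PiLp.toLp_apply, Matrix.cons_val_zero, Matrix.cons_val_one, Matrix.cons_val]
    linear_combination (z' 0 * (v' 1 * w' 2 - v' 2 * w' 1) + z' 1 * (v' 2 * w' 0 - v' 0 * w' 2)
      + z' 2 * (v' 0 * w' 1 - v' 1 * w' 0)) * hz
  · intro z v hv
    show 0 < areaForm z v (jP1 z v)
    rw [areaForm_apply, dInc_jP1]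
    have h2 : dInc z v ≠ 0 := fun h => hv (dInc_injective z (h.trans (map_zero _).symm))
    exact area_pos_aux _ _ (inner_self_P1 z) (inner_dInc z v) h2

/-- the vertical unit vector -/
def e3 : R3 := !₂[0, 0, 1]

/-- the rotation field of the sphere about the vertical axis -/
def Rf (z : P1) : TangentSpace (𝓡 2) z := tanProj z (cross e3 (z : R3))

/-- the height -/
def ht (z : P1) : ℝ := (z : R3) 2

theorem dInc_Rf (z : P1) : dInc z (Rf z) = cross e3 (z : R3) := by
  unfold Rf
  rw [dInc_tanProj]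
  have : inner ℝ (z : R3) (cross e3 (z : R3)) = (0 : ℝ) := by
    rw [formW_pos_dot]
    simp only [cross]
    simp only [PiLp.toLp_apply, Matrix.cons_val_zero, Matrix.cons_val_one, Matrix.cons_val]
    ring
  rw [this, zero_smul, sub_zero]

/-- `Rf` is the Hamiltonian field of the height -/
theorem area_Rf (z : P1) (h : TangentSpace (𝓡 2) z) : areaForm z (Rf z) h = (dInc z h) 2 := by
  rw [areaForm_apply, dInc_Rf]
  have hz := inner_self_P1 z
  have hv := inner_dInc z h
  generalize dInc z h = v' at hv ⊢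
  generalize (z : R3) = z' at hz hv ⊢
  rw [formW_pos_dot] at hz hv
  rw [formW_pos_dot]
  simp only [cross, e3]
  simp only [PiLp.toLp_apply, Matrix.cons_val_zero, Matrix.cons_val_one, Matrix.cons_val]
  linear_combination v' 2 * hz - z' 2 * hv

theorem contMDiff_ht : ContMDiff (𝓡 2) 𝓘(ℝ, ℝ) ∞ ht := by
  have h1 : ContMDiff (𝓡 2) 𝓘(ℝ, R3) ∞ (fun z : P1 => (z : R3)) := contMDiff_coe_sphere
  have h2 : ContDiff ℝ ∞ (fun v : R3 => v 2) := contDiff_euclidean.mp contDiff_id 2
  exact h2.contMDiff.comp h1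

/-- the third coordinate -/
def pr2 : R3 →L[ℝ] ℝ := EuclideanSpace.proj 2

theorem hasMFDerivAt_ht (z : P1) : HasMFDerivAt (𝓡 2) 𝓘(ℝ, ℝ) ht z
    (pr2.comp (dInc z) : E2 →L[ℝ] ℝ) := by
  have h3 : HasMFDerivAt (𝓡 2) 𝓘(ℝ, R3) (fun z : P1 => (z : R3)) z (dInc z) :=
    (((contMDiff_coe_sphere (n := 2) (E := R3) (m := ∞)) z).mdifferentiableAt
      (by simp)).hasMFDerivAt
  have h4 : HasMFDerivAt 𝓘(ℝ, R3) 𝓘(ℝ, ℝ) pr2 (z : R3) pr2 := pr2.hasFDerivAt.hasMFDerivAt
  exact h4.comp z h3

/-- the rotation field in the charts is smooth -/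
theorem contDiff_Rf_chart (z₀ : P1) : ContDiff ℝ ∞ (fun y : E2 =>
    Sc (𝓡 2) z₀ ((extChartAt (𝓡 2) z₀).symm y) (Rf ((extChartAt (𝓡 2) z₀).symm y))) := by
  have : (fun y : E2 => Sc (𝓡 2) z₀ ((extChartAt (𝓡 2) z₀).symm y)
      (Rf ((extChartAt (𝓡 2) z₀).symm y))) = fun y => Pc z₀ y (cross e3 (Zc z₀ y)) := rfl
  rw [this]
  exact (contDiff_Pc z₀).clm_apply (contDiff_cross contDiff_const (contDiff_Zc z₀))

end Pool.Agent.KS6_95.RK
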