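import Mathlib
import Pool.Agent.KS6_95.RK.Prod

/-!
# Vector fields and points connected by pieces of integral curves
-/

open scoped Manifold ContDiff Topology
open Metric Set Bundle

noncomputable section

namespace Pool.Agent.KS6_95.RK

variable {F : Type*} [NormedAddCommGroup F] [NormedSpace ℝ F] {H : Type*} [TopologicalSpace H]
  {I : ModelWithCorners ℝ F H} {Y : Type*} [TopologicalSpace Y] [ChartedSpace H Y]

variable (I Y) in
/-- vector fields -/
abbrev VField : Type _ := (y : Y) → TangentSpace I y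

/-- a vector field in the preferred chart at `x₀` -/
def vfInChart (V : VField I Y) (x₀ : Y) (e : F) : F :=
  Sc I x₀ ((extChartAt I x₀).symm e) (V ((extChartAt I x₀).symm e) : F)

/-- smooth vector fields -/
def SmoothVF (V : VField I Y) : Prop :=
  ∀ x₀, ContDiffOn ℝ ∞ (vfInChart V x₀) (extChartAt I x₀).target

/-- the point `y'` is reached from `y` along an integral curve of `V` which is defined for
`|s| < 3`, in time at most `1 / 2` -/
def Move (V : VField I Y) (y y' : Y) : Prop :=
  ∃ γ : ℝ → Y, ContMDiffOn 𝓘(ℝ, ℝ) I ∞ γ (Ioo (-3) 3) ∧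
    (∀ s ∈ Ioo (-3 : ℝ) 3, HasMFDerivAt 𝓘(ℝ, ℝ) I γ s
      ((1 : ℝ →L[ℝ] ℝ).smulRight (V (γ s) : F))) ∧ γ 0 = y ∧ ∃ s : ℝ, |s| ≤ 1 / 2 ∧ γ s = y'

/-- `y'` is reached from `y` by moves along some of the fields of the list -/
def Conn : List (VField I Y) → Y → Y → Prop
  | [], y, y' => y = y'
  | V :: L, y, y' => ∃ y₁, (y₁ = y ∨ Move V y y₁) ∧ Conn L y₁ y'

theorem conn_refl (L : List (VField I Y)) (y : Y) : Conn L y y := by
  induction L with
  | nil => rfl
  | cons V L ih => exact ⟨y, Or.inl rfl, ih⟩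

theorem conn_append {L L' : List (VField I Y)} {y y' y'' : Y} (h : Conn L y y')
    (h' : Conn L' y' y'') : Conn (L ++ L') y y'' := by
  induction L generalizing y with
  | nil =>
    have : y = y' := h
    subst this
    exact h'
  | cons V L ih =>
    obtain ⟨y₁, h1, h2⟩ := h
    exact ⟨y₁, h1, ih h2⟩

theorem conn_flatten {ls : List (List (VField I Y))} {l : List (VField I Y)} (hl : l ∈ ls)
    {y y' : Y} (h : Conn l y y') : Conn ls.flatten y y' := by
  induction ls with
  | nil => exact absurd hl (by simp)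
  | cons a ls ih =>
    rw [List.flatten_cons]
    rcases List.mem_cons.1 hl with h1 | h1
    · subst h1
      exact conn_append h (conn_refl _ _)
    · exact conn_append (conn_refl _ _) (ih h1)

/-- a list repeated -/
def rep (k : ℕ) (M : List (VField I Y)) : List (VField I Y) := (List.replicate k M).flatten

theorem rep_add (k l : ℕ) (M : List (VField I Y)) : rep (k + l) M = rep k M ++ rep l M := by
  unfold rep
  rw [List.replicate_add, List.flatten_append]

theorem conn_rep_mono {k l : ℕ} (h : k ≤ l) {M : List (VField I Y)} {y y' : Y}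
    (hc : Conn (rep k M) y y') : Conn (rep l M) y y' := by
  obtain ⟨m, rfl⟩ := Nat.exists_eq_add_of_le h
  rw [rep_add]
  exact conn_append hc (conn_refl _ _)

theorem mem_rep {k : ℕ} {M : List (VField I Y)} {V : VField I Y} (h : V ∈ rep k M) : V ∈ M := by
  unfold rep at h
  rw [List.mem_flatten] at h
  obtain ⟨l, hl, hV⟩ := h
  rw [List.mem_replicate] at hl
  rw [hl.2] at hV
  exact hV

/-- the points reached one after the other -/
theorem conn_seq {L : List (VField I Y)} {y y' : Y} (h : Conn L y y') :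
    ∃ z : ℕ → Y, z 0 = y ∧ z L.length = y' ∧
      ∀ k (hk : k < L.length), z (k + 1) = z k ∨ Move (L[k]) (z k) (z (k + 1)) := by
  induction L generalizing y with
  | nil => exact ⟨fun _ => y, rfl, h, fun k hk => absurd hk (by simp)⟩
  | cons V L ih =>
    obtain ⟨y₁, h1, h2⟩ := h
    obtain ⟨z, hz0, hz1, hz2⟩ := ih h2
    refine ⟨fun k => Nat.casesOn k y z, rfl, hz1, ?_⟩
    intro k hk
    rcases k with _ | k
    · show z 0 = y ∨ Move V y (z 0)
      rw [hz0]
      exact h1
    · exact hz2 k (by simpa using hk)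

/-! ### bump fields -/

variable [FiniteDimensional ℝ F]

/-- the field `f b` in the chart at `c` -/
def bumpField {c : Y} (f : SmoothBumpFunction I c) (b : F) : VField I Y := fun y =>
  (f y • Tc I c (extChartAt I c y) b : F)

variable [I.Boundaryless] [T2Space Y] [IsManifold I ∞ Y]

theorem smooth_bumpField {c : Y} (f : SmoothBumpFunction I c) (b : F) :
    SmoothVF (bumpField f b) := by
  intro x₀ e he
  apply ContDiffAt.contDiffWithinAt
  set y := (extChartAt I x₀).symm e with hy
  have hyx : y ∈ (extChartAt I x₀).source := (extChartAt I x₀).map_target he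
  have hsymm : ContMDiffAt 𝓘(ℝ, F) I ∞ (extChartAt I x₀).symm e := symm_contMDiffAt x₀ he
  by_cases hyc : y ∈ (extChartAt I c).source
  · -- the formula near `e`
    have hU : ∀ᶠ e' in 𝓝 e, e' ∈ (extChartAt I x₀).target ∧
        (extChartAt I x₀).symm e' ∈ (extChartAt I c).source :=
      Filter.inter_mem ((isOpen_extChartAt_target x₀).mem_nhds he)
        (hsymm.continuousAt ((isOpen_extChartAt_source c).mem_nhds hyc))
    let τ : F → F := fun a => extChartAt I x₀ ((extChartAt I c).symm a)
    let σ : F → F := fun e' => extChartAt I c ((extChartAt I x₀).symm e')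
    have hτ : ContDiffAt ℝ ∞ τ (extChartAt I c y) := by
      have h1 : ContMDiffAt 𝓘(ℝ, F) I ∞ (extChartAt I c).symm (extChartAt I c y) :=
        symm_contMDiffAt c ((extChartAt I c).map_source hyc)
      have h2 : ContMDiffAt I 𝓘(ℝ, F) ∞ (extChartAt I x₀)
          ((extChartAt I c).symm (extChartAt I c y)) := by
        rw [(extChartAt I c).left_inv hyc]
        exact contMDiffAt_extChartAt' (by rwa [extChartAt_source] at hyx)
      exact contMDiffAt_iff_contDiffAt.1 (h2.comp (extChartAt I c y) h1)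
    have hσ : ContDiffAt ℝ ∞ σ e := by
      have h2 : ContMDiffAt I 𝓘(ℝ, F) ∞ (extChartAt I c) ((extChartAt I x₀).symm e) :=
        contMDiffAt_extChartAt' (by rwa [extChartAt_source] at hyc)
      exact contMDiffAt_iff_contDiffAt.1 (h2.comp e hsymm)
    have hf : ContDiffAt ℝ ∞ (fun e' => f ((extChartAt I x₀).symm e')) e := by
      have h2 : ContMDiffAt I 𝓘(ℝ, ℝ) ∞ f ((extChartAt I x₀).symm e) := f.contMDiff _
      exact contMDiffAt_iff_contDiffAt.1 (h2.comp e hsymm)
    have hD : ContDiffAt ℝ ∞ (fun e' => fderiv ℝ τ (σ e') b) e := by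
      have h1 : ContDiffAt ℝ ∞ (fderiv ℝ τ) (σ e) := hτ.fderiv_right (by simp)
      exact (h1.comp e hσ).clm_apply contDiffAt_const
    refine (hf.smul hD).congr_of_eventuallyEq ?_
    filter_upwards [hU] with e' he'
    set y' := (extChartAt I x₀).symm e' with hy'
    have hy'x : y' ∈ (extChartAt I x₀).source := (extChartAt I x₀).map_target he'.1
    have h1 : vfInChart (bumpField f b) x₀ e' =
        f y' • Sc I x₀ y' (Tc I c (extChartAt I c y') b) := by
      show Sc I x₀ y' (f y' • Tc I c (extChartAt I c y') b) = _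
      rw [map_smul]
    rw [h1]
    congr 1
    have g1 : HasMFDerivAt 𝓘(ℝ, F) I (extChartAt I c).symm (extChartAt I c y')
        (Tc I c (extChartAt I c y') : F →L[ℝ] F) :=
      hasMFDerivAt_symm c ((extChartAt I c).map_source he'.2)
    have g2 : HasMFDerivAt I 𝓘(ℝ, F) (extChartAt I x₀)
        ((extChartAt I c).symm (extChartAt I c y')) (Sc I x₀ y' : F →L[ℝ] F) := by
      rw [(extChartAt I c).left_inv he'.2]
      exact hasMFDerivAt_chart x₀ hy'x
    have g3 := g2.comp (extChartAt I c y') g1
    have g4 : HasFDerivAt τ ((Sc I x₀ y').comp (Tc I c (extChartAt I c y'))) (σ e') :=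
      hasMFDerivAt_iff_hasFDerivAt.1 g3
    show _ = fderiv ℝ τ (σ e') b
    rw [g4.fderiv]
    rfl
  · -- the field vanishes near `e`
    have hys : y ∉ tsupport f := fun h => hyc (by
      rw [extChartAt_source]
      exact f.tsupport_subset_chartAt_source h)
    have hU : ∀ᶠ e' in 𝓝 e, (extChartAt I x₀).symm e' ∈ (tsupport f)ᶜ :=
      hsymm.continuousAt ((isClosed_tsupport f).isOpen_compl.mem_nhds hys)
    refine (contDiffAt_const (c := (0 : F))).congr_of_eventuallyEq ?_
    filter_upwards [hU] with e' he'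
    have h0 : f ((extChartAt I x₀).symm e') = 0 := image_eq_zero_of_notMem_tsupport he'
    show Sc I x₀ _ (f ((extChartAt I x₀).symm e') • _ : F) = 0
    rw [h0, zero_smul, map_zero]

/-- straight lines in the chart are integral curves of the bump fields -/
theorem move_bump {c : Y} (f : SmoothBumpFunction I c) {b x : F} (hb : 6 * ‖b‖ ≤ f.rIn)
    (hx : dist x (extChartAt I c c) < f.rIn / 2) {s : ℝ} (hs : |s| ≤ 1 / 2) :
    Move (bumpField f b) ((extChartAt I c).symm x) ((extChartAt I c).symm (x + s • b)) := by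
  have hmem : ∀ s ∈ Ioo (-3 : ℝ) 3, dist (x + s • b) (extChartAt I c c) ≤ f.rIn := by
    intro s hs
    have h1 : dist (x + s • b) (extChartAt I c c) ≤ dist (x + s • b) x
      + dist x (extChartAt I c c) := dist_triangle _ _ _
    have h2 : dist (x + s • b) x = |s| * ‖b‖ := by
      rw [dist_eq_norm, add_sub_cancel_left, norm_smul, Real.norm_eq_abs]
    have h3 : |s| ≤ 3 := (abs_lt.2 hs).le
    have h4 : |s| * ‖b‖ ≤ 3 * ‖b‖ := mul_le_mul_of_nonneg_right h3 (norm_nonneg b)
    rw [h2] at h1
    linarith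
  have htar : ∀ s ∈ Ioo (-3 : ℝ) 3, x + s • b ∈ (extChartAt I c).target := by
    intro s hs
    apply f.closedBall_subset
    refine ⟨?_, by rw [ModelWithCorners.range_eq_univ]; trivial⟩
    rw [mem_closedBall]
    exact (hmem s hs).trans f.rIn_lt_rOut.le
  have hlin : ∀ s : ℝ, HasFDerivAt (fun s : ℝ => x + s • b) ((1 : ℝ →L[ℝ] ℝ).smulRight b) s := by
    intro s
    have h1 : HasFDerivAt (fun s : ℝ => s • b) ((1 : ℝ →L[ℝ] ℝ).smulRight b) s :=
      (hasFDerivAt_id s).smul_const b
    exact h1.const_add x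
  refine ⟨fun s => (extChartAt I c).symm (x + s • b), ?_, ?_, ?_, s, hs, rfl⟩
  · intro s hs
    have h1 : ContMDiffAt 𝓘(ℝ, ℝ) 𝓘(ℝ, F) ∞ (fun s : ℝ => x + s • b) s := by
      apply ContDiffAt.contMDiffAt
      exact contDiffAt_const.add (contDiffAt_id.smul contDiffAt_const)
    have h2 : ContMDiffAt 𝓘(ℝ, F) I ∞ (extChartAt I c).symm (x + s • b) :=
      symm_contMDiffAt c (htar s hs)
    exact (h2.comp s h1).contMDiffWithinAt
  · intro s hs
    have h1 := hasMFDerivAt_symm (I := I) c (htar s hs)
    have h2 := h1.comp s (hlin s).hasMFDerivAt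
    have h3 : (bumpField f b ((extChartAt I c).symm (x + s • b)) : F)
        = Tc I c (x + s • b) b := by
      have hsrc : (extChartAt I c).symm (x + s • b) ∈ (extChartAt I c).source :=
        (extChartAt I c).map_target (htar s hs)
      have h4 : f ((extChartAt I c).symm (x + s • b)) = 1 := by
        apply f.one_of_dist_le
        · rwa [extChartAt_source] at hsrc
        · rw [(extChartAt I c).right_inv (htar s hs)]
          exact hmem s hs
      show (f ((extChartAt I c).symm (x + s • b)) • Tc I c (extChartAt I c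
        ((extChartAt I c).symm (x + s • b))) b : F) = _
      rw [h4, one_smul, (extChartAt I c).right_inv (htar s hs)]
    have h5 : ((1 : ℝ →L[ℝ] ℝ).smulRight (bumpField f b ((extChartAt I c).symm (x + s • b)) : F))
        = (Tc I c (x + s • b)).comp ((1 : ℝ →L[ℝ] ℝ).smulRight b) := by
      rw [h3]
      refine ContinuousLinearMap.ext fun u => ?_
      show u • Tc I c (x + s • b) b = Tc I c (x + s • b) (u • b)
      rw [map_smul]
    rw [h5]
    exact h2
  · show (extChartAt I c).symm (x + (0 : ℝ) • b) = _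
    rw [zero_smul, add_zero]

theorem conn_list {c : Y} (f : SmoothBumpFunction I c) {n : ℕ} (w : Fin n → F) (s : Fin n → ℝ)
    (hs : ∀ j, |s j| ≤ 1 / 2) (hw : ∀ j, 6 * ‖w j‖ ≤ f.rIn) (l : List (Fin n)) (x : F)
    (hx : dist x (extChartAt I c c) + (l.map fun j => |s j| * ‖w j‖).sum < f.rIn / 2) :
    Conn (l.map fun j => bumpField f (w j)) ((extChartAt I c).symm x)
      ((extChartAt I c).symm (x + (l.map fun j => s j • w j).sum)) := by
  induction l generalizing x with
  | nil => simp [Conn]
  | cons j l ih =>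
    rw [List.map_cons, List.sum_cons] at hx
    rw [List.map_cons, List.map_cons, List.sum_cons, ← add_assoc]
    have h0 : 0 ≤ (l.map fun j => |s j| * ‖w j‖).sum := by
      apply List.sum_nonneg
      intro a ha
      obtain ⟨i, _, rfl⟩ := List.mem_map.1 ha
      positivity
    have h1 : 0 ≤ |s j| * ‖w j‖ := by positivity
    refine ⟨(extChartAt I c).symm (x + s j • w j), Or.inr ?_, ih _ ?_⟩
    · exact move_bump f (hw j) (by linarith) (hs j)
    · have h2 : dist (x + s j • w j) (extChartAt I c c) ≤ |s j| * ‖w j‖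
          + dist x (extChartAt I c c) := by
        have h3 : dist (x + s j • w j) x = |s j| * ‖w j‖ := by
          rw [dist_eq_norm, add_sub_cancel_left, norm_smul, Real.norm_eq_abs]
        rw [← h3]
        exact dist_triangle _ _ _
      linarith

/-- every point has a neighbourhood whose points are connected to each other -/
theorem exists_local (c : Y) : ∃ (L : List (VField I Y)) (U : Set Y), (∀ V ∈ L, SmoothVF V) ∧
    IsOpen U ∧ c ∈ U ∧ ∀ y ∈ U, ∀ y' ∈ U, Conn L y y' := by
  classical
  obtain ⟨f⟩ : Nonempty (SmoothBumpFunction I c) := inferInstance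
  set r := f.rIn with hr
  have hr0 : 0 < r := f.rIn_pos
  set n := Module.finrank ℝ F with hn
  let B : Module.Basis (Fin n) ℝ F := Module.finBasis ℝ F
  -- bounds for the coordinates
  obtain ⟨M, hM0, hM⟩ : ∃ M : ℝ, 0 < M ∧ ∀ (v : F) (j : Fin n), |B.repr v j| ≤ M * ‖v‖ := by
    let C : Fin n → (F →L[ℝ] ℝ) := fun j => LinearMap.toContinuousLinearMap (B.coord j)
    refine ⟨1 + ∑ j, ‖C j‖, ?_, ?_⟩
    · have : 0 ≤ ∑ j, ‖C j‖ := Finset.sum_nonneg fun _ _ => norm_nonneg _
      linarith
    · intro v j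
      have h1 : |B.repr v j| = ‖C j v‖ := rfl
      rw [h1]
      refine ((C j).le_opNorm v).trans ?_
      apply mul_le_mul_of_nonneg_right _ (norm_nonneg v)
      have := Finset.single_le_sum (f := fun j => ‖C j‖) (fun _ _ => norm_nonneg _)
        (Finset.mem_univ j)
      linarith
  obtain ⟨N, hN0, hN⟩ : ∃ N : ℝ, 0 < N ∧ ∀ j : Fin n, ‖B j‖ ≤ N := by
    refine ⟨1 + ∑ j, ‖B j‖, ?_, ?_⟩
    · have : 0 ≤ ∑ j, ‖B j‖ := Finset.sum_nonneg fun _ _ => norm_nonneg _
      linarith
    · intro j
      have := Finset.single_le_sum (f := fun j => ‖B j‖) (fun _ _ => norm_nonneg _)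
        (Finset.mem_univ j)
      linarith
  set ε : ℝ := r / (6 * N) with hε
  have hε0 : 0 < ε := by positivity
  let w : Fin n → F := fun j => ε • B j
  have hw : ∀ j, 6 * ‖w j‖ ≤ r := by
    intro j
    have h1 : ‖w j‖ = ε * ‖B j‖ := by
      rw [norm_smul, Real.norm_eq_abs, abs_of_pos hε0]
    rw [h1]
    have h2 : ε * ‖B j‖ ≤ ε * N := mul_le_mul_of_nonneg_left (hN j) hε0.le
    have h3 : 6 * (ε * N) = r := by
      rw [hε]; field_simp
    linarith
  -- the size of the neighbourhood
  obtain ⟨δ, hδ0, hδ1, hδ2⟩ : ∃ δ : ℝ, 0 < δ ∧ 2 * M * δ ≤ ε / 2 ∧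
      δ + n * (2 * M * δ * N) < r / 2 := by
    have hev : ∀ᶠ δ : ℝ in 𝓝[>] 0, 2 * M * δ ≤ ε / 2 ∧ δ + n * (2 * M * δ * N) < r / 2 := by
      have h1 : Filter.Tendsto (fun δ : ℝ => 2 * M * δ) (𝓝[>] 0) (𝓝 (2 * M * 0)) :=
        ((continuous_const.mul continuous_id).tendsto 0).mono_left nhdsWithin_le_nhds
      have h2 : Filter.Tendsto (fun δ : ℝ => δ + n * (2 * M * δ * N)) (𝓝[>] 0)
          (𝓝 (0 + n * (2 * M * 0 * N))) := by
        have hc : Continuous (fun δ : ℝ => δ + n * (2 * M * δ * N)) := by fun_prop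
        exact (hc.tendsto 0).mono_left nhdsWithin_le_nhds
      rw [mul_zero] at h1
      have h3 : (0 : ℝ) + n * (2 * M * 0 * N) = 0 := by ring
      rw [h3] at h2
      exact (h1.eventually_le_const (by positivity)).and (h2.eventually_lt_const (by positivity))
    obtain ⟨δ, hδ, hδ'⟩ := (hev.and self_mem_nhdsWithin).exists
    exact ⟨δ, hδ', hδ.1, hδ.2⟩
  refine ⟨(List.finRange n).map fun j => bumpField f (w j),
    (extChartAt I c).source ∩ extChartAt I c ⁻¹' ball (extChartAt I c c) δ, ?_, ?_, ?_, ?_⟩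
  · intro V hV
    obtain ⟨j, _, rfl⟩ := List.mem_map.1 hV
    exact smooth_bumpField f (w j)
  · exact isOpen_extChartAt_preimage' (I := I) c
      (isOpen_ball (x := extChartAt I c c) (ε := δ))
  · exact ⟨mem_extChartAt_source c, mem_ball_self hδ0⟩
  · rintro y ⟨hys, hyb⟩ y' ⟨hys', hyb'⟩
    set x := extChartAt I c y with hx
    set x' := extChartAt I c y' with hx'
    have hyb1 : dist x (extChartAt I c c) < δ := hyb
    have hyb2 : dist x' (extChartAt I c c) < δ := hyb'
    let s : Fin n → ℝ := fun j => B.repr (x' - x) j / ε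
    have hnorm : ‖x' - x‖ ≤ 2 * δ := by
      rw [← dist_eq_norm]
      have := dist_triangle_right x' x (extChartAt I c c)
      linarith
    have hco : ∀ j, |B.repr (x' - x) j| ≤ 2 * M * δ := by
      intro j
      refine (hM _ j).trans ?_
      have := mul_le_mul_of_nonneg_left hnorm hM0.le
      linarith
    have hs : ∀ j, |s j| ≤ 1 / 2 := by
      intro j
      show |B.repr (x' - x) j / ε| ≤ 1 / 2
      rw [abs_div, abs_of_pos hε0, div_le_iff₀ hε0]
      linarith [hco j]
    have hsw : ∀ j, s j • w j = B.repr (x' - x) j • B j := by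
      intro j
      show (B.repr (x' - x) j / ε) • (ε • B j) = _
      rw [smul_smul, div_mul_cancel₀ _ hε0.ne']
    have hsum : ((List.finRange n).map fun j => s j • w j).sum = x' - x := by
      rw [← Fin.sum_univ_def]
      simp only [hsw]
      exact B.sum_repr (x' - x)
    have hlen : ((List.finRange n).map fun j => |s j| * ‖w j‖).sum ≤ n * (2 * M * δ * N) := by
      rw [← Fin.sum_univ_def]
      have h1 : ∀ j ∈ (Finset.univ : Finset (Fin n)), |s j| * ‖w j‖ ≤ 2 * M * δ * N := by
        intro j _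
        have h2 : |s j| * ‖w j‖ = |B.repr (x' - x) j| * ‖B j‖ := by
          rw [← Real.norm_eq_abs, ← norm_smul, hsw, norm_smul, Real.norm_eq_abs]
        rw [h2]
        exact mul_le_mul (hco j) (hN j) (norm_nonneg _) (by positivity)
      have := Finset.sum_le_card_nsmul _ _ _ h1
      simpa using this
    have hconn := conn_list f w s hs hw (List.finRange n) x (by linarith)
    rw [hsum] at hconn
    have e1 : (extChartAt I c).symm x = y := (extChartAt I c).left_inv hys
    have e2 : x + (x' - x) = x' := by abel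
    rw [e2] at hconn
    have e3 : (extChartAt I c).symm x' = y' := (extChartAt I c).left_inv hys'
    rw [e1, e3] at hconn
    exact hconn

/-- on a closed connected manifold finitely many fields connect all pairs of points -/
theorem exists_global [CompactSpace Y] [PreconnectedSpace Y] :
    ∃ L : List (VField I Y), (∀ V ∈ L, SmoothVF V) ∧ ∀ y y', Conn L y y' := by
  classical
  choose L U hL hU hcU hLU using exists_local (I := I) (Y := Y)
  obtain ⟨t, ht⟩ := CompactSpace.elim_nhds_subcover U fun c => (hU c).mem_nhds (hcU c)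
  have hcov : ∀ y : Y, ∃ c ∈ t, y ∈ U c := by
    intro y
    have h1 : y ∈ ⋃ x ∈ t, U x := by rw [ht]; trivial
    simpa using h1
  set M : List (VField I Y) := (t.toList.map L).flatten with hM
  have hMs : ∀ V ∈ M, SmoothVF V := by
    intro V hV
    rw [hM, List.mem_flatten] at hV
    obtain ⟨l, hl, hV⟩ := hV
    obtain ⟨c, _, rfl⟩ := List.mem_map.1 hl
    exact hL c V hV
  have hMU : ∀ c ∈ t, ∀ y ∈ U c, ∀ y' ∈ U c, Conn M y y' := by
    intro c hc y hy y' hy'
    exact conn_flatten (List.mem_map.2 ⟨c, Finset.mem_toList.2 hc, rfl⟩) (hLU c y hy y' hy')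
  have h1M : rep 1 M = M := by simp [rep]
  have hP : ∀ y y' : Y, ∃ k, Conn (rep k M) y y' ∧ Conn (rep k M) y' y := by
    intro y y'
    refine isPreconnected_univ.induction₂ (fun y y' : Y => ∃ k, Conn (rep k M) y y' ∧
      Conn (rep k M) y' y) ?_ ?_ ?_ (mem_univ y) (mem_univ y')
    · intro y _
      obtain ⟨c, hc, hy⟩ := hcov y
      rw [nhdsWithin_univ]
      filter_upwards [(hU c).mem_nhds hy] with y' hy'
      exact ⟨1, by rw [h1M]; exact ⟨hMU c hc y hy y' hy', hMU c hc y' hy' y hy⟩⟩
    · rintro a b c _ _ _ ⟨k, h1, h2⟩ ⟨l, h3, h4⟩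
      refine ⟨k + l, ?_, ?_⟩
      · rw [rep_add]; exact conn_append h1 h3
      · rw [add_comm, rep_add]; exact conn_append h4 h2
    · rintro a b _ _ ⟨k, h1, h2⟩
      exact ⟨k, h2, h1⟩
  choose k hk1 hk2 using hP
  set K := t.sup fun c => t.sup fun c' => k c c' with hK
  have hkK : ∀ c ∈ t, ∀ c' ∈ t, k c c' ≤ K := by
    intro c hc c' hc'
    exact (Finset.le_sup (f := fun c' => k c c') hc').trans
      (Finset.le_sup (f := fun c => t.sup fun c' => k c c') hc)
  refine ⟨M ++ (rep K M ++ M), ?_, ?_⟩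
  · intro V hV
    rw [List.mem_append, List.mem_append] at hV
    rcases hV with hV | hV | hV
    · exact hMs V hV
    · exact hMs V (mem_rep hV)
    · exact hMs V hV
  · intro y y'
    obtain ⟨c, hc, hy⟩ := hcov y
    obtain ⟨c', hc', hy'⟩ := hcov y'
    refine conn_append (hMU c hc y hy c (hcU c)) (conn_append ?_ (hMU c' hc' c' (hcU c') y' hy'))
    exact conn_rep_mono (hkK c hc c' hc') (hk1 c c')

end Pool.Agent.KS6_95.RK
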