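import Mathlib
import Pool.Agent.KS6_95.RK.PS
import Pool.Agent.KS6_95.RK.VF

/-!
# The almost complex structure on `P1 × (P1 × Y)`
-/

open scoped Manifold ContDiff Topology
open Metric Set Bundle
open Pool.Agent.Helper206.Cover
open Pool.Agent.Helper206.Rat (SymplecticForm AlmostComplex IsCompatible contDiff_Pc)

noncomputable section

namespace Pool.Agent.KS6_95.RK

attribute [local instance] factR3

section Pure

variable {A B G : Type*} [NormedAddCommGroup A] [NormedSpace ℝ A] [NormedAddCommGroup B]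
  [NormedSpace ℝ B] [NormedAddCommGroup G] [NormedSpace ℝ G]
  {a : G → A →L[ℝ] A →L[ℝ] ℝ} {b : G → B →L[ℝ] B →L[ℝ] ℝ} {R : G → A} {V : G → B}
  {j : G → A →L[ℝ] A} {k : G → B →L[ℝ] B} {x : G → A × B} {s : Set G}

theorem contDiffOn_phi (ha : ContDiffOn ℝ ∞ a s) (hb : ContDiffOn ℝ ∞ b s)
    (hR : ContDiffOn ℝ ∞ R s) (hV : ContDiffOn ℝ ∞ V s) (hx : ContDiffOn ℝ ∞ x s) :
    ContDiffOn ℝ ∞ (fun g => phi (a g) (b g) (R g) (V g) (x g)) s := by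
  simp only [phi_apply]
  have h1 : ContDiffOn ℝ ∞ (fun g => (x g).1) s := contDiff_fst.comp_contDiffOn hx
  have h2 : ContDiffOn ℝ ∞ (fun g => (x g).2) s := contDiff_snd.comp_contDiffOn hx
  exact (h1.sub (((hb.clm_apply h2).clm_apply hV).smul hR)).prodMk
    (h2.add (((ha.clm_apply hR).clm_apply h1).smul hV))

theorem contDiffOn_twist (ha : ContDiffOn ℝ ∞ a s) (hb : ContDiffOn ℝ ∞ b s)
    (hR : ContDiffOn ℝ ∞ R s) (hV : ContDiffOn ℝ ∞ V s) (hj : ContDiffOn ℝ ∞ j s)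
    (hk : ContDiffOn ℝ ∞ k s) (v : A × B) :
    ContDiffOn ℝ ∞ (fun g => twist (a g) (b g) (R g) (V g) (j g) (k g) v) s := by
  simp only [twist_apply]
  have h0 := contDiffOn_phi ha hb hR hV.neg (contDiffOn_const (c := v))
  have h1 : ContDiffOn ℝ ∞ (fun g => (phi (a g) (b g) (R g) (-V g) v).1) s :=
    contDiff_fst.comp_contDiffOn h0
  have h2 : ContDiffOn ℝ ∞ (fun g => (phi (a g) (b g) (R g) (-V g) v).2) s :=
    contDiff_snd.comp_contDiffOn h0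
  exact contDiffOn_phi ha hb hR hV ((hj.clm_apply h1).prodMk (hk.clm_apply h2))

theorem pos_aux {C : Type*} [NormedAddCommGroup C] [NormedSpace ℝ C]
    {a : A →L[ℝ] A →L[ℝ] ℝ} {j : A →L[ℝ] A} (h : ∀ u, u ≠ 0 → 0 < a u (j u))
    {p : C →L[ℝ] C →L[ℝ] ℝ} {T : C →L[ℝ] C} (h' : ∀ u, u ≠ 0 → 0 < p u (T u)) (v : A × C)
    (hv : v ≠ 0) : 0 < a v.1 (j v.1) + p v.2 (T v.2) := by
  by_cases h1 : v.1 = 0
  · have h2 : v.2 ≠ 0 := fun h => hv (Prod.ext h1 h)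
    rw [h1]
    simpa using h' _ h2
  · by_cases h2 : v.2 = 0
    · rw [h2]
      simpa using h _ h1
    · exact add_pos (h _ h1) (h' _ h2)

end Pure

variable {F : Type*} [NormedAddCommGroup F] [NormedSpace ℝ F] {H : Type*} [TopologicalSpace H]
  {I : ModelWithCorners ℝ F H} {Y : Type*} [TopologicalSpace Y] [ChartedSpace H Y]

variable (Y) in
/-- the manifold -/
abbrev XY : Type _ := P1 × (P1 × Y)

variable (I) in
/-- its model -/
abbrev IX : ModelWithCorners ℝ (E2 × (E2 × F)) (ModelProd E2 (ModelProd E2 H)) :=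
  (𝓡 2).prod ((𝓡 2).prod I)

/-- smooth families of vector fields with parameters in the sphere -/
def SmoothFam (W : P1 → VField I Y) : Prop :=
  ∀ (t₀ : P1) (x₀ : Y), ContDiffOn ℝ ∞
    (fun e : E2 × F => vfInChart (W ((extChartAt (𝓡 2) t₀).symm e.1)) x₀ e.2)
    (univ ×ˢ (extChartAt I x₀).target)

/-- the field of endomorphisms -/
def JX (Ω : SymplecticForm I Y) (K : AlmostComplex I Y) (W : P1 → VField I Y) :
    EndoField (IX I) (XY Y) := fun x =>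
  ((jP1 x.1 : E2 →L[ℝ] E2).prodMap
    (twist (A := E2) (B := F) (areaForm x.2.1) (Ω.form x.2.2) (Rf x.2.1) (W x.1 x.2.2)
      (jP1 x.2.1) (K.J x.2.2)) : E2 × (E2 × F) →L[ℝ] E2 × (E2 × F))

theorem JX_apply (Ω : SymplecticForm I Y) (K : AlmostComplex I Y) (W : P1 → VField I Y)
    (x : XY Y) (v : E2 × (E2 × F)) :
    (JX Ω K W x v : E2 × (E2 × F)) = ((jP1 x.1 : E2 →L[ℝ] E2) v.1,
      twist (A := E2) (B := F) (areaForm x.2.1) (Ω.form x.2.2) (Rf x.2.1) (W x.1 x.2.2)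
      (jP1 x.2.1) (K.J x.2.2) v.2) := rfl

variable [FiniteDimensional ℝ F] [I.Boundaryless] [IsManifold I ∞ Y]

/-- the expression of `JX` in the charts -/
def JXc (Ω : SymplecticForm I Y) (K : AlmostComplex I Y) (W : P1 → VField I Y) (x₀ : XY Y)
    (e : E2 × (E2 × F)) : E2 × (E2 × F) →L[ℝ] E2 × (E2 × F) :=
  (endoInChart jP1 x₀.1 e.1).prodMap (twist (formInChart areaForm x₀.2.1 e.2.1)
    (formInChart Ω.form x₀.2.2 e.2.2)
    (Sc (𝓡 2) x₀.2.1 ((extChartAt (𝓡 2) x₀.2.1).symm e.2.1)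
      (Rf ((extChartAt (𝓡 2) x₀.2.1).symm e.2.1)))
    (vfInChart (W ((extChartAt (𝓡 2) x₀.1).symm e.1)) x₀.2.2 e.2.2)
    (endoInChart jP1 x₀.2.1 e.2.1) (endoInChart K.J x₀.2.2 e.2.2))

theorem endoInChart_JX (Ω : SymplecticForm I Y) (K : AlmostComplex I Y) (W : P1 → VField I Y)
    (x₀ : XY Y) {e : E2 × (E2 × F)} (he : e ∈ (extChartAt (IX I) x₀).target) :
    endoInChart (JX Ω K W) x₀ e = JXc Ω K W x₀ e := by
  have he1 := (mem_target_prod (I₁ := 𝓡 2) (I₂ := (𝓡 2).prod I) x₀ e).1 he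
  have he2 := (mem_target_prod (I₁ := 𝓡 2) (I₂ := I) x₀.2 e.2).1 he1.2
  refine ContinuousLinearMap.ext fun v => ?_
  rw [endoInChart_apply]
  have hT : Tc (IX I) x₀ e v = (Tc (𝓡 2) x₀.1 e.1 v.1, (Tc (𝓡 2) x₀.2.1 e.2.1 v.2.1,
      Tc I x₀.2.2 e.2.2 v.2.2)) := by
    rw [Tc_prod (I₁ := 𝓡 2) (I₂ := (𝓡 2).prod I) x₀ he, Tc_prod (I₁ := 𝓡 2) (I₂ := I) x₀.2 he1.2]
  rw [hT]
  set x : XY Y := (extChartAt (IX I) x₀).symm e with hx
  have hxs : x ∈ (extChartAt (IX I) x₀).source := (extChartAt (IX I) x₀).map_target he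
  have hxe : x = ((extChartAt (𝓡 2) x₀.1).symm e.1, ((extChartAt (𝓡 2) x₀.2.1).symm e.2.1,
      (extChartAt I x₀.2.2).symm e.2.2)) := by
    rw [hx, chart_symm_prod (I₁ := 𝓡 2) (I₂ := (𝓡 2).prod I), chart_symm_prod (I₁ := 𝓡 2) (I₂ := I)]
  have hxs2 : x.2 ∈ (extChartAt ((𝓡 2).prod I) x₀.2).source :=
    ((mem_source_prod (I₁ := 𝓡 2) (I₂ := (𝓡 2).prod I) x₀ x).1 hxs).2
  rw [Sc_prod (I₁ := 𝓡 2) (I₂ := (𝓡 2).prod I) x₀ hxs,
    Sc_prod (I₁ := 𝓡 2) (I₂ := I) x₀.2 hxs2]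
  have key : ∀ x : XY Y, x = ((extChartAt (𝓡 2) x₀.1).symm e.1,
      ((extChartAt (𝓡 2) x₀.2.1).symm e.2.1, (extChartAt I x₀.2.2).symm e.2.2)) →
      ((Sc (𝓡 2) x₀.1 x.1 (((JX Ω K W x) (Tc (𝓡 2) x₀.1 e.1 v.1, (Tc (𝓡 2) x₀.2.1 e.2.1 v.2.1,
        Tc I x₀.2.2 e.2.2 v.2.2)) : E2 × (E2 × F)).1),
      (Sc (𝓡 2) x₀.2.1 x.2.1 (((JX Ω K W x) (Tc (𝓡 2) x₀.1 e.1 v.1, (Tc (𝓡 2) x₀.2.1 e.2.1 v.2.1,
        Tc I x₀.2.2 e.2.2 v.2.2)) : E2 × (E2 × F)).2.1),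
      Sc I x₀.2.2 x.2.2 (((JX Ω K W x) (Tc (𝓡 2) x₀.1 e.1 v.1, (Tc (𝓡 2) x₀.2.1 e.2.1 v.2.1,
        Tc I x₀.2.2 e.2.2 v.2.2)) : E2 × (E2 × F)).2.2))) : E2 × (E2 × F))
      = JXc Ω K W x₀ e v := by
    rintro x rfl
    simp only [JX_apply]
    refine Prod.ext rfl ?_
    refine (twist_natural
      (Sc (𝓡 2) x₀.2.1 ((extChartAt (𝓡 2) x₀.2.1).symm e.2.1)) (Tc (𝓡 2) x₀.2.1 e.2.1)
      (Sc I x₀.2.2 ((extChartAt I x₀.2.2).symm e.2.2)) (Tc I x₀.2.2 e.2.2)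
      (Tc_Sc x₀.2.1 he2.1) (Tc_Sc x₀.2.2 he2.2) (Sc_Tc x₀.2.1 he2.1) (Sc_Tc x₀.2.2 he2.2)
      (a' := formInChart areaForm x₀.2.1 e.2.1) (b' := formInChart Ω.form x₀.2.2 e.2.2)
      (fun _ _ => rfl) (fun _ _ => rfl) _ _ _ _ v.2)
  exact key x hxe

theorem smooth_JXc (Ω : SymplecticForm I Y) (K : AlmostComplex I Y) {W : P1 → VField I Y}
    (hW : SmoothFam W) (x₀ : XY Y) :
    ContDiffOn ℝ ∞ (JXc Ω K W x₀) (extChartAt (IX I) x₀).target := by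
  rw [contDiffOn_clm_apply]
  intro v
  have hm1 : ∀ e ∈ (extChartAt (IX I) x₀).target, e.1 ∈ (extChartAt (𝓡 2) x₀.1).target :=
    fun e he => ((mem_target_prod (I₁ := 𝓡 2) (I₂ := (𝓡 2).prod I) x₀ e).1 he).1
  have hm2 : ∀ e ∈ (extChartAt (IX I) x₀).target, e.2.1 ∈ (extChartAt (𝓡 2) x₀.2.1).target :=
    fun e he => ((mem_target_prod (I₁ := 𝓡 2) (I₂ := I) x₀.2 e.2).1
      ((mem_target_prod (I₁ := 𝓡 2) (I₂ := (𝓡 2).prod I) x₀ e).1 he).2).1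
  have hm3 : ∀ e ∈ (extChartAt (IX I) x₀).target, e.2.2 ∈ (extChartAt I x₀.2.2).target :=
    fun e he => ((mem_target_prod (I₁ := 𝓡 2) (I₂ := I) x₀.2 e.2).1
      ((mem_target_prod (I₁ := 𝓡 2) (I₂ := (𝓡 2).prod I) x₀ e).1 he).2).2
  have c21 : ContDiffOn ℝ ∞ (fun e : E2 × (E2 × F) => e.2.1) (extChartAt (IX I) x₀).target :=
    (contDiff_fst.comp contDiff_snd).contDiffOn
  have c22 : ContDiffOn ℝ ∞ (fun e : E2 × (E2 × F) => e.2.2) (extChartAt (IX I) x₀).target :=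
    (contDiff_snd.comp contDiff_snd).contDiffOn
  have c1 : ContDiffOn ℝ ∞ (fun e : E2 × (E2 × F) => e.1) (extChartAt (IX I) x₀).target :=
    contDiff_fst.contDiffOn
  have s1 : ContDiffOn ℝ ∞ (fun e : E2 × (E2 × F) => endoInChart jP1 x₀.1 e.1 v.1)
      (extChartAt (IX I) x₀).target :=
    ((jS.smooth x₀.1).comp c1 hm1).clm_apply contDiffOn_const
  have s2 : ContDiffOn ℝ ∞ (fun e : E2 × (E2 × F) => formInChart areaForm x₀.2.1 e.2.1)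
      (extChartAt (IX I) x₀).target := (areaS.smooth x₀.2.1).comp c21 hm2
  have s3 : ContDiffOn ℝ ∞ (fun e : E2 × (E2 × F) => formInChart Ω.form x₀.2.2 e.2.2)
      (extChartAt (IX I) x₀).target := (Ω.smooth x₀.2.2).comp c22 hm3
  have s4 : ContDiffOn ℝ ∞ (fun e : E2 × (E2 × F) =>
      Sc (𝓡 2) x₀.2.1 ((extChartAt (𝓡 2) x₀.2.1).symm e.2.1)
      (Rf ((extChartAt (𝓡 2) x₀.2.1).symm e.2.1))) (extChartAt (IX I) x₀).target :=
    (contDiff_Rf_chart x₀.2.1).comp_contDiffOn c21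
  have s5 : ContDiffOn ℝ ∞ (fun e : E2 × (E2 × F) =>
      vfInChart (W ((extChartAt (𝓡 2) x₀.1).symm e.1)) x₀.2.2 e.2.2)
      (extChartAt (IX I) x₀).target :=
    (hW x₀.1 x₀.2.2).comp (c1.prodMk c22) fun e he => ⟨trivial, hm3 e he⟩
  have s6 : ContDiffOn ℝ ∞ (fun e : E2 × (E2 × F) => endoInChart jP1 x₀.2.1 e.2.1)
      (extChartAt (IX I) x₀).target := (jS.smooth x₀.2.1).comp c21 hm2
  have s7 : ContDiffOn ℝ ∞ (fun e : E2 × (E2 × F) => endoInChart K.J x₀.2.2 e.2.2)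
      (extChartAt (IX I) x₀).target := (K.smooth x₀.2.2).comp c22 hm3
  exact s1.prodMk (contDiffOn_twist s2 s3 s4 s5 s6 s7 v.2)

/-- the almost complex structure on `P1 × (P1 × Y)` -/
def KX (Ω : SymplecticForm I Y) (K : AlmostComplex I Y) {W : P1 → VField I Y}
    (hW : SmoothFam W) : AlmostComplex (IX I) (XY Y) where
  J := JX Ω K W
  smooth := fun x₀ => (smooth_JXc Ω K hW x₀).congr fun _ he => endoInChart_JX Ω K W x₀ he
  sq := by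
    intro x v
    refine Prod.ext (jS.sq x.1 v.1) ?_
    exact twist_sq (A := E2) (B := F) (areaS.alt x.2.1) (Ω.alt x.2.2) _ _ (jS.sq x.2.1)
      (K.sq x.2.2) v.2

/-- the product form on `P1 × (P1 × Y)` -/
def OX (Ω : SymplecticForm I Y) : SymplecticForm (IX I) (XY Y) :=
  prodSymp areaS (prodSymp areaS Ω)

theorem compatible_KX {Ω : SymplecticForm I Y} {K : AlmostComplex I Y} (hK : IsCompatible Ω K)
    {W : P1 → VField I Y} (hW : SmoothFam W) : IsCompatible (OX Ω) (KX Ω K hW) := by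
  constructor
  · intro x v w
    have h1 : areaForm x.1 (jP1 x.1 v.1) (jP1 x.1 w.1) = areaForm x.1 v.1 w.1 :=
      areaS_jS.1 x.1 v.1 w.1
    have h2 := pform_twist (A := E2) (B := F) (areaS.alt x.2.1) (Ω.alt x.2.2) (Rf x.2.1)
      (W x.1 x.2.2) (j := jP1 x.2.1) (k := K.J x.2.2) (areaS_jS.1 x.2.1) (hK.1 x.2.2) v.2 w.2
    exact congrArg₂ (· + ·) h1 h2
  · intro x v hv
    exact pos_aux (A := E2) (C := E2 × F) (areaS_jS.2 x.1) (pform_twist_pos (A := E2) (B := F)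
      (areaS.alt x.2.1) (Ω.alt x.2.2) (Rf x.2.1) (W x.1 x.2.2) (areaS_jS.2 x.2.1)
      (hK.2 x.2.2)) v hv

end Pool.Agent.KS6_95.RK
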