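import Mathlib
import Pool.Graph.R_seed8.Helper449.RC.Class
import Pool.Agent.KS6_95.RK.Str

/-!
# The holomorphic spheres and their classes
-/

open scoped Manifold ContDiff Topology
open Metric Set Bundle
open Pool.Agent.Helper206.Cover
open Pool.Agent.Helper206.Rat (SymplecticForm AlmostComplex IsCompatible IsHolomorphic
  RationalCurve)
open Pool.Agent.Helper449.RC (H2 H2map H2map_congr homotopic_of_family curveClass)

noncomputable section

namespace Pool.Agent.KS6_95.RK

attribute [local instance] factR3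

theorem ht_mem (z : P1) : -1 ≤ ht z ∧ ht z ≤ 1 := by
  have h := inner_self_P1 z
  rw [formW_pos_dot] at h
  unfold ht
  constructor
  · nlinarith [sq_nonneg ((z : R3) 0), sq_nonneg ((z : R3) 1)]
  · nlinarith [sq_nonneg ((z : R3) 0), sq_nonneg ((z : R3) 1)]

theorem ht_sub_mem (z w : P1) : ht z - ht w ∈ Ioo (-3 : ℝ) 3 := by
  have h1 := ht_mem z
  have h2 := ht_mem w
  exact ⟨by linarith [h1.1, h2.2], by linarith [h1.2, h2.1]⟩

section

variable {F : Type*} [NormedAddCommGroup F] [NormedSpace ℝ F] {H : Type*} [TopologicalSpace H]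
  {I : ModelWithCorners ℝ F H} {Y : Type*} [TopologicalSpace Y] [ChartedSpace H Y]

/-- `γ` is an integral curve of `V` for `|s| < 3` -/
def Integral (V : VField I Y) (γ : ℝ → Y) : Prop :=
  ContMDiffOn 𝓘(ℝ, ℝ) I ∞ γ (Ioo (-3) 3) ∧
    ∀ s ∈ Ioo (-3 : ℝ) 3, HasMFDerivAt 𝓘(ℝ, ℝ) I γ s
      ((1 : ℝ →L[ℝ] ℝ).smulRight (V (γ s) : F))

theorem integral_zero (y : Y) : Integral (I := I) (fun _ => (0 : F)) (fun _ => y) := by
  refine ⟨contMDiffOn_const, fun s _ => ?_⟩
  have h := hasMFDerivAt_const (I := 𝓘(ℝ, ℝ)) (I' := I) y s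
  have h2 : ((1 : ℝ →L[ℝ] ℝ).smulRight (0 : F)) = 0 := by
    refine ContinuousLinearMap.ext fun u => ?_
    show u • (0 : F) = 0
    rw [smul_zero]
  have key : ∀ L : ℝ →L[ℝ] F, L = 0 → HasMFDerivAt 𝓘(ℝ, ℝ) I (fun _ : ℝ => y) s L := by
    rintro L rfl
    exact h
  exact key _ h2

/-- the spheres in the first factor -/
def uH (p : P1 × Y) (s : P1) : XY Y := (s, p)

/-- the graphs over the second factor -/
def uV (t w : P1) (γ : ℝ → Y) (s : P1) : XY Y := (t, (s, γ (ht s - ht w)))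

theorem uH_injective (p : P1 × Y) : Function.Injective (uH p) := fun _ _ h => congrArg Prod.fst h

theorem uV_injective (t w : P1) (γ : ℝ → Y) : Function.Injective (uV t w γ) :=
  fun _ _ h => congrArg (fun x : XY Y => x.2.1) h

theorem uV_self (t w : P1) (γ : ℝ → Y) : uV t w γ w = (t, (w, γ 0)) := by
  unfold uV
  rw [sub_self]

theorem contMDiff_uH (p : P1 × Y) : ContMDiff (𝓡 2) (IX I) ∞ (uH p) :=
  contMDiff_id.prodMk contMDiff_const

theorem mfderiv_uH (p : P1 × Y) (z : P1) (w : E2) :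
    (mfderiv (𝓡 2) (IX I) (uH p) z w : E2 × (E2 × F)) = (w, 0) := by
  have h1 : HasMFDerivAt (𝓡 2) (𝓡 2) (fun s : P1 => s) z (ContinuousLinearMap.id ℝ E2) :=
    hasMFDerivAt_id z
  have h2 : HasMFDerivAt (𝓡 2) ((𝓡 2).prod I) (fun _ : P1 => p) z (0 : E2 →L[ℝ] E2 × F) :=
    hasMFDerivAt_const p z
  have g := h1.prodMk h2
  have h3 : mfderiv (𝓡 2) (IX I) (uH p) z =
    ContinuousLinearMap.prod (ContinuousLinearMap.id ℝ E2) (0 : E2 →L[ℝ] E2 × F) := g.mfderiv
  exact congrArg (fun L : E2 →L[ℝ] E2 × (E2 × F) => L w) h3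

theorem contMDiff_uV (t w : P1) {V : VField I Y} {γ : ℝ → Y} (hγ : Integral V γ) :
    ContMDiff (𝓡 2) (IX I) ∞ (uV t w γ) := by
  have h1 : ContMDiff (𝓡 2) 𝓘(ℝ, ℝ) ∞ (fun s : P1 => ht s - ht w) :=
    contMDiff_ht.sub contMDiff_const
  have h2 : ContMDiff (𝓡 2) I ∞ (fun s : P1 => γ (ht s - ht w)) := by
    intro s
    have h3 : ContMDiffAt 𝓘(ℝ, ℝ) I ∞ γ (ht s - ht w) :=
      hγ.1.contMDiffAt (isOpen_Ioo.mem_nhds (ht_sub_mem s w))
    exact h3.comp s (h1 s)
  exact contMDiff_const.prodMk (contMDiff_id.prodMk h2)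

theorem mfderiv_uV (t w : P1) {V : VField I Y} {γ : ℝ → Y} (hγ : Integral V γ) (s : P1) (h : E2) :
    (mfderiv (𝓡 2) (IX I) (uV t w γ) s h : E2 × (E2 × F)) =
      (0, (h, (areaForm s (Rf s) h : ℝ) • (V (γ (ht s - ht w)) : F))) := by
  have h1 : HasMFDerivAt (𝓡 2) (𝓡 2) (fun _ : P1 => t) s (0 : E2 →L[ℝ] E2) :=
    hasMFDerivAt_const t s
  have h2 : HasMFDerivAt (𝓡 2) (𝓡 2) (fun s : P1 => s) s (ContinuousLinearMap.id ℝ E2) :=
    hasMFDerivAt_id s
  have h3 : HasMFDerivAt (𝓡 2) 𝓘(ℝ, ℝ) (fun s : P1 => ht s - ht w) s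
      (pr2.comp (dInc s) : E2 →L[ℝ] ℝ) := by
    have h4 : HasMFDerivAt 𝓘(ℝ, ℝ) 𝓘(ℝ, ℝ) (fun r : ℝ => r - ht w) (ht s)
        (ContinuousLinearMap.id ℝ ℝ) :=
      ((hasFDerivAt_id (ht s)).sub_const (ht w)).hasMFDerivAt
    exact h4.comp s (hasMFDerivAt_ht s)
  have h5 := (hγ.2 _ (ht_sub_mem s w)).comp s h3
  have g := h1.prodMk (h2.prodMk h5)
  have h6 : mfderiv (𝓡 2) (IX I) (uV t w γ) s =
    ContinuousLinearMap.prod (0 : E2 →L[ℝ] E2) (ContinuousLinearMap.prod
      (ContinuousLinearMap.id ℝ E2) (((1 : ℝ →L[ℝ] ℝ).smulRight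
        (V (γ (ht s - ht w)) : F)).comp (pr2.comp (dInc s) : E2 →L[ℝ] ℝ))) := g.mfderiv
  refine (congrArg (fun L : E2 →L[ℝ] E2 × (E2 × F) => L h) h6).trans ?_
  refine Prod.ext rfl (Prod.ext rfl ?_)
  show (dInc s h) 2 • (V (γ (ht s - ht w)) : F) = _
  have h7 := area_Rf s h
  rw [← h7]

variable [FiniteDimensional ℝ F] [I.Boundaryless] [IsManifold I ∞ Y]
  {Ω : SymplecticForm I Y} {K : AlmostComplex I Y} {W : P1 → VField I Y}

theorem holomorphic_uH (hW : SmoothFam W) (p : P1 × Y) :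
    IsHolomorphic (I' := 𝓡 2) jP1 (KX Ω K hW) (uH p) := by
  refine ⟨contMDiff_uH p, fun z w => ?_⟩
  have e1 := mfderiv_uH (I := I) p z (jP1 z w)
  have e2 := mfderiv_uH (I := I) p z w
  have e3 : (JX Ω K W (uH p z) ((w, 0) : E2 × (E2 × F)) : E2 × (E2 × F)) = (jP1 z w, 0) := by
    rw [JX_apply]
    refine Prod.ext rfl ?_
    exact map_zero _
  refine e1.trans (e3.symm.trans ?_)
  exact congrArg (fun v : E2 × (E2 × F) => (JX Ω K W (uH p z) v : E2 × (E2 × F))) e2.symm

theorem holomorphic_uV (hW : SmoothFam W) (t w : P1) {γ : ℝ → Y} (hγ : Integral (W t) γ) :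
    IsHolomorphic (I' := 𝓡 2) jP1 (KX Ω K hW) (uV t w γ) := by
  refine ⟨contMDiff_uV t w hγ, fun s h => ?_⟩
  have e1 := mfderiv_uV t w hγ s (jP1 s h)
  have e2 := mfderiv_uV t w hγ s h
  have e3 : (JX Ω K W (uV t w γ s)
      ((0, (h, (areaForm s (Rf s) h : ℝ) • (W t (γ (ht s - ht w)) : F))) : E2 × (E2 × F)) :
        E2 × (E2 × F)) =
      (0, (jP1 s h, (areaForm s (Rf s) (jP1 s h) : ℝ) • (W t (γ (ht s - ht w)) : F))) := by
    rw [JX_apply]
    refine Prod.ext (map_zero _) ?_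
    exact twist_graph (A := E2) (B := F) (areaS.alt s) (Ω.alt (γ (ht s - ht w))) (Rf s)
      (W t (γ (ht s - ht w))) (jP1 s) (K.J (γ (ht s - ht w))) h
  refine e1.trans (e3.symm.trans ?_)
  exact congrArg (fun v : E2 × (E2 × F) => (JX Ω K W (uV t w γ s) v : E2 × (E2 × F))) e2.symm

end

/-! ### homotopies and classes -/

section

variable {F : Type*} [NormedAddCommGroup F] [NormedSpace ℝ F] {H : Type*} [TopologicalSpace H]
  {I : ModelWithCorners ℝ F H} {Y : Type} [TopologicalSpace Y] [ChartedSpace H Y]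

theorem continuous_uH (p : P1 × Y) : Continuous (uH p) := continuous_id.prodMk continuous_const

theorem continuous_uV (t w : P1) {V : VField I Y} {γ : ℝ → Y} (hγ : Integral V γ) :
    Continuous (uV t w γ) := (contMDiff_uV t w hγ).continuous

theorem pathConnected_P1 : PathConnectedSpace P1 := by
  have h : IsPathConnected (sphere (0 : R3) 1) := isPathConnected_sphere (by
    rw [← Module.finrank_eq_rank]
    have : Module.finrank ℝ R3 = 3 := by simp
    rw [this]
    norm_num) 0 zero_le_one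
  exact isPathConnected_iff_pathConnectedSpace.mp h

theorem class_uH [PathConnectedSpace Y] (p q : P1 × Y) (σ : H2 P1) :
    H2map ⟨uH p, continuous_uH p⟩ σ = H2map ⟨uH q, continuous_uH q⟩ σ := by
  have := pathConnected_P1
  have h := homotopic_of_family (P := P1 × Y) (S := P1) (X := XY Y) (fun p s => uH p s)
    (continuous_snd.prodMk continuous_fst) p q (continuous_uH p) (continuous_uH q)
  rw [H2map_congr h]

theorem continuous_const_uV (t : P1) (y : Y) : Continuous (fun s : P1 => ((t, (s, y)) : XY Y)) :=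
  continuous_const.prodMk (continuous_id.prodMk continuous_const)

theorem class_const [PathConnectedSpace Y] (t t' : P1) (y y' : Y) (σ : H2 P1) :
    H2map ⟨fun s : P1 => ((t, (s, y)) : XY Y), continuous_const_uV t y⟩ σ =
      H2map ⟨fun s : P1 => ((t', (s, y')) : XY Y), continuous_const_uV t' y'⟩ σ := by
  have := pathConnected_P1
  have h := homotopic_of_family (P := P1 × Y) (S := P1) (X := XY Y) (fun p s => (p.1, (s, p.2)))
    (by fun_prop) (t, y) (t', y') (continuous_const_uV t y) (continuous_const_uV t' y')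
  rw [H2map_congr h]

theorem class_uV [PathConnectedSpace Y] (t w : P1) {V : VField I Y} {γ : ℝ → Y}
    (hγ : Integral V γ) (t' : P1) (y' : Y) (σ : H2 P1) :
    H2map ⟨uV t w γ, continuous_uV t w hγ⟩ σ =
      H2map ⟨fun s : P1 => ((t', (s, y')) : XY Y), continuous_const_uV t' y'⟩ σ := by
  rw [← class_const t t' (γ 0) y' σ]
  have hcont : Continuous (fun x : unitInterval × P1 =>
      ((t, (x.2, γ ((x.1 : ℝ) * (ht x.2 - ht w)))) : XY Y)) := by
    have h1 : Continuous (fun x : unitInterval × P1 => (x.1 : ℝ) * (ht x.2 - ht w)) := by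
      have : Continuous ht := contMDiff_ht.continuous
      fun_prop
    have h2 : Continuous (fun x : unitInterval × P1 => γ ((x.1 : ℝ) * (ht x.2 - ht w))) := by
      rw [continuous_iff_continuousAt]
      intro x
      have hm : (x.1 : ℝ) * (ht x.2 - ht w) ∈ Ioo (-3 : ℝ) 3 := by
        have h3 := ht_sub_mem x.2 w
        have h4 : |(x.1 : ℝ) * (ht x.2 - ht w)| < 3 := by
          rw [abs_mul, abs_of_nonneg x.1.2.1]
          have h5 : |ht x.2 - ht w| < 3 := abs_lt.2 h3
          nlinarith [abs_nonneg (ht x.2 - ht w), x.1.2.1, x.1.2.2]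
        exact abs_lt.1 h4
      have h3 : ContinuousAt γ ((x.1 : ℝ) * (ht x.2 - ht w)) :=
        hγ.1.continuousOn.continuousAt (isOpen_Ioo.mem_nhds hm)
      exact ContinuousAt.comp (f := fun x : unitInterval × P1 => (x.1 : ℝ) * (ht x.2 - ht w))
        h3 h1.continuousAt
    exact continuous_const.prodMk (continuous_snd.prodMk h2)
  have e1 : (fun s : P1 => ((t, (s, γ (((1 : unitInterval) : ℝ) * (ht s - ht w)))) : XY Y))
      = uV t w γ := by
    funext s
    simp [uV]
  have e0 : (fun s : P1 => ((t, (s, γ (((0 : unitInterval) : ℝ) * (ht s - ht w)))) : XY Y))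
      = fun s => (t, (s, γ 0)) := by
    funext s
    simp
  have hc1 : Continuous (fun s : P1 => ((t, (s, γ (((1 : unitInterval) : ℝ) * (ht s - ht w))))
      : XY Y)) := by
    rw [e1]; exact continuous_uV t w hγ
  have hc0 : Continuous (fun s : P1 => ((t, (s, γ (((0 : unitInterval) : ℝ) * (ht s - ht w))))
      : XY Y)) := by
    rw [e0]; exact continuous_const_uV t (γ 0)
  have : PathConnectedSpace unitInterval := isPathConnected_iff_pathConnectedSpace.mp
    ((convex_Icc (0 : ℝ) 1).isPathConnected ⟨0, by simp⟩)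
  have h := homotopic_of_family (P := unitInterval) (S := P1) (X := XY Y)
    (fun σ s => (t, (s, γ ((σ : ℝ) * (ht s - ht w))))) hcont 1 0 hc1 hc0
  have h' := H2map_congr h
  have k1 : (⟨uV t w γ, continuous_uV t w hγ⟩ : C(P1, XY Y)) =
      ⟨fun s : P1 => ((t, (s, γ (((1 : unitInterval) : ℝ) * (ht s - ht w)))) : XY Y), hc1⟩ :=
    ContinuousMap.ext fun s => (congrFun e1 s).symm
  have k0 : (⟨fun s : P1 => ((t, (s, γ 0)) : XY Y), continuous_const_uV t (γ 0)⟩ : C(P1, XY Y)) =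
      ⟨fun s : P1 => ((t, (s, γ (((0 : unitInterval) : ℝ) * (ht s - ht w)))) : XY Y), hc0⟩ :=
    ContinuousMap.ext fun s => (congrFun e0 s).symm
  rw [k1, k0, h']

end

/-- connected manifolds without boundary are path connected -/
theorem pathConnected_of_manifold {F : Type*} [NormedAddCommGroup F] [NormedSpace ℝ F] {H : Type*}
    [TopologicalSpace H] (I : ModelWithCorners ℝ F H) [I.Boundaryless] (Y : Type*)
    [TopologicalSpace Y] [ChartedSpace H Y] [ConnectedSpace Y] : PathConnectedSpace Y := by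
  have h1 : LocallyPathConnectedSpace H :=
    I.toHomeomorph.isOpenEmbedding.locallyPathConnectedSpace
  have h2 : LocallyPathConnectedSpace Y := ChartedSpace.locallyPathConnectedSpace H Y
  exact pathConnectedSpace_iff_connectedSpace.2 inferInstance

end Pool.Agent.KS6_95.RK
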