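import Mathlib
import Pool.Agent.KS6_95.RK.Cur

/-!
# Chains of spheres
-/

open scoped Manifold ContDiff Topology
open Metric Set Bundle
open Pool.Agent.Helper206.Cover
open Pool.Agent.Helper206.Rat (SymplecticForm AlmostComplex IsCompatible IsHolomorphic
  RationalCurve)
open Pool.Agent.Helper449.RC (H2 H2map curveClass)

noncomputable section

namespace Pool.Agent.KS6_95.RK

attribute [local instance] factR3

theorem isTree_pathGraph (n : ℕ) : (SimpleGraph.pathGraph (n + 1)).IsTree := by
  classical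
  rw [SimpleGraph.isTree_iff_connected_and_card]
  refine ⟨SimpleGraph.pathGraph_connected n, ?_⟩
  have hadj : ∀ i : Fin n, (SimpleGraph.pathGraph (n + 1)).Adj i.castSucc i.succ := by
    intro i
    rw [SimpleGraph.pathGraph_adj]
    left
    simp
  let f : Fin n → (SimpleGraph.pathGraph (n + 1)).edgeSet := fun i => ⟨s(i.castSucc, i.succ), hadj i⟩
  have hf : Function.Bijective f := by
    constructor
    · intro i j h
      have h1 : s(i.castSucc, i.succ) = s(j.castSucc, j.succ) := congrArg Subtype.val h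
      rw [Sym2.eq_iff] at h1
      rcases h1 with ⟨h2, _⟩ | ⟨h2, h3⟩
      · exact Fin.castSucc_injective n h2
      · exfalso
        have e1 : (i : ℕ) = (j : ℕ) + 1 := by
          have := congrArg Fin.val h2
          simpa using this
        have e2 : (i : ℕ) + 1 = (j : ℕ) := by
          have := congrArg Fin.val h3
          simpa using this
        omega
    · rintro ⟨e, he⟩
      induction e using Sym2.ind with
      | _ a b =>
        rw [SimpleGraph.mem_edgeSet, SimpleGraph.pathGraph_adj] at he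
        rcases he with h | h
        · have ha : (a : ℕ) < n := by have := b.2; omega
          refine ⟨⟨a, ha⟩, Subtype.ext ?_⟩
          show s((⟨a, ha⟩ : Fin n).castSucc, (⟨a, ha⟩ : Fin n).succ) = s(a, b)
          have e1 : (⟨a, ha⟩ : Fin n).castSucc = a := Fin.ext rfl
          have e2 : (⟨a, ha⟩ : Fin n).succ = b := Fin.ext h
          rw [e1, e2]
        · have hb : (b : ℕ) < n := by have := a.2; omega
          refine ⟨⟨b, hb⟩, Subtype.ext ?_⟩
          show s((⟨b, hb⟩ : Fin n).castSucc, (⟨b, hb⟩ : Fin n).succ) = s(a, b)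
          have e1 : (⟨b, hb⟩ : Fin n).castSucc = b := Fin.ext rfl
          have e2 : (⟨b, hb⟩ : Fin n).succ = a := Fin.ext h
          rw [e1, e2, Sym2.eq_swap]
  have h1 : Nat.card (SimpleGraph.pathGraph (n + 1)).edgeSet = n := by
    rw [← Nat.card_congr (Equiv.ofBijective f hf), Nat.card_eq_fintype_card, Fintype.card_fin]
  rw [h1, Nat.card_eq_fintype_card, Fintype.card_fin]

section

variable {E : Type*} [NormedAddCommGroup E] [NormedSpace ℝ E] {H : Type*} [TopologicalSpace H]
  {I : ModelWithCorners ℝ E H} {X : Type*} [TopologicalSpace X] [ChartedSpace H X]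
  {J : AlmostComplex I X}

/-- a chain of spheres -/
def pathCurve (n : ℕ) (u : ℕ → P1 → X) (p q : ℕ → P1)
    (hu : ∀ a ≤ n, IsHolomorphic (I' := 𝓡 2) jP1 J (u a))
    (hne : ∀ a, 0 < a → a < n → p a ≠ q a)
    (heq : ∀ a, a < n → u a (p a) = u (a + 1) (q (a + 1)))
    (hnc : ∃ z w, u 0 z ≠ u 0 w) : RationalCurve (I' := 𝓡 2) jP1 J where
  n := n + 1
  graph := SimpleGraph.pathGraph (n + 1)
  isTree := isTree_pathGraph n
  node := fun a b => if a.val + 1 = b.val then p a else q a
  node_ne := by
    intro a b c hab hac hbc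
    rw [SimpleGraph.pathGraph_adj] at hab hac
    have hb := b.2
    have hc := c.2
    by_cases h1 : a.val + 1 = b.val
    · have h2 : ¬ a.val + 1 = c.val := fun h => hbc (Fin.ext (h1.symm.trans h))
      rw [if_pos h1, if_neg h2]
      exact hne a (by omega) (by omega)
    · have h2 : a.val + 1 = c.val := by
        by_contra h2
        exact hbc (Fin.ext (by omega))
      rw [if_neg h1, if_pos h2]
      exact (hne a (by omega) (by omega)).symm
  u := fun a => u a.val
  holomorphic := fun a => hu a.val (by have := a.2; omega)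
  node_eq := by
    intro a b hab
    rw [SimpleGraph.pathGraph_adj] at hab
    have ha := a.2
    have hb := b.2
    rcases hab with h | h
    · rw [if_pos h, if_neg (by omega), ← h]
      exact heq a.val (by omega)
    · rw [if_neg (by omega), if_pos h, ← h]
      exact (heq b.val (by omega)).symm
  nonconstant := by
    obtain ⟨z, w, h⟩ := hnc
    exact ⟨0, z, w, h⟩

end

/-! ### points of the sphere -/

/-- the point with the coordinates `a, b, c` -/
def mkP (a b c : ℝ) (h : a ^ 2 + b ^ 2 + c ^ 2 = 1) : P1 :=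
  ⟨!₂[a, b, c], by
    rw [mem_sphere_zero_iff_norm, EuclideanSpace.norm_eq, Real.sqrt_eq_one, Fin.sum_univ_three]
    simpa using h⟩

theorem ht_mkP (a b c : ℝ) (h : a ^ 2 + b ^ 2 + c ^ 2 = 1) : ht (mkP a b c h) = c := rfl

/-- the level circles are infinite -/
theorem exists_level (S : Finset P1) (h : ℝ) (hh : |h| ≤ 1 / 2) : ∃ w : P1, ht w = h ∧ w ∉ S := by
  have hh2 : h ^ 2 ≤ 1 / 4 := by
    have := sq_le_sq' (abs_le.1 hh).1 (abs_le.1 hh).2
    linarith
  have hpos : 0 < 1 - h ^ 2 := by linarith
  have hr : 0 < Real.sqrt (1 - h ^ 2) := Real.sqrt_pos.2 hpos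
  have hr2 : Real.sqrt (1 - h ^ 2) ^ 2 = 1 - h ^ 2 := Real.sq_sqrt hpos.le
  let f : Icc (0 : ℝ) 1 → P1 := fun c => mkP (Real.sqrt (1 - h ^ 2) * c)
    (Real.sqrt (1 - h ^ 2) * Real.sqrt (1 - (c : ℝ) ^ 2)) h (by
      have h1 : (c : ℝ) ^ 2 ≤ 1 := by
        have := c.2.1; have := c.2.2
        nlinarith
      have h2 : Real.sqrt (1 - (c : ℝ) ^ 2) ^ 2 = 1 - (c : ℝ) ^ 2 := Real.sq_sqrt (by linarith)
      rw [mul_pow, mul_pow, hr2, h2]
      ring)
  have hinj : Function.Injective f := by
    intro c c' hcc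
    have h1 : (f c : R3) 0 = (f c' : R3) 0 := by rw [hcc]
    have h2 : Real.sqrt (1 - h ^ 2) * (c : ℝ) = Real.sqrt (1 - h ^ 2) * (c' : ℝ) := h1
    exact Subtype.ext (mul_left_cancel₀ hr.ne' h2)
  have hinf : (range f).Infinite := by
    have : Infinite (Icc (0 : ℝ) 1) := (Icc_infinite one_pos).to_subtype
    exact infinite_range_of_injective hinj
  obtain ⟨w, ⟨c, rfl⟩, hw⟩ := hinf.exists_notMem_finset S
  exact ⟨f c, rfl, hw⟩

/-- distinct points with prescribed heights -/
theorem exists_levels (S : Finset P1) (h : ℕ → ℝ) (hh : ∀ j, |h j| ≤ 1 / 2) (n : ℕ) :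
    ∃ w : ℕ → P1, (∀ j < n, ht (w j) = h j ∧ w j ∉ S) ∧ ∀ i j, i < j → j < n → w i ≠ w j := by
  classical
  induction n with
  | zero => exact ⟨fun _ => mkP 1 0 0 (by norm_num), fun j hj => absurd hj (by omega),
      fun i j _ hj => absurd hj (by omega)⟩
  | succ n ih =>
    obtain ⟨w, hw1, hw2⟩ := ih
    obtain ⟨v, hv1, hv2⟩ := exists_level (S ∪ (Finset.range n).image w) (h n) (hh n)
    rw [Finset.mem_union, not_or] at hv2
    refine ⟨fun j => if j < n then w j else v, ?_, ?_⟩
    · intro j hj
      by_cases hjn : j < n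
      · simp only [if_pos hjn]
        exact hw1 j hjn
      · have : j = n := by omega
        subst this
        simp only [if_neg hjn]
        exact ⟨hv1, hv2.1⟩
    · intro i j hij hj
      by_cases hjn : j < n
      · simp only [if_pos hjn, if_pos (hij.trans hjn)]
        exact hw2 i j hij hjn
      · have hjn' : j = n := by omega
        subst hjn'
        simp only [if_neg hjn, if_pos hij]
        intro he
        exact hv2.2 (Finset.mem_image.2 ⟨i, Finset.mem_range.2 hij, he⟩)

/-- the height of the `i`-th special point -/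
def hgt (i : ℕ) : ℝ := 1 / ((i : ℝ) + 2)

theorem hgt_inj : Function.Injective hgt := by
  intro i j h
  unfold hgt at h
  have h1 : (0 : ℝ) < (i : ℝ) + 2 := by positivity
  have h2 : (0 : ℝ) < (j : ℝ) + 2 := by positivity
  rw [div_eq_div_iff h1.ne' h2.ne'] at h
  have : (i : ℝ) = j := by linarith
  exact_mod_cast this

theorem hgt_sq (i : ℕ) : hgt i ^ 2 ≤ 1 := by
  unfold hgt
  rw [div_pow, one_pow, div_le_one (by positivity)]
  have : (0 : ℝ) ≤ i := Nat.cast_nonneg i
  nlinarith

/-- the special points of the first sphere -/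
def pt (i : ℕ) : P1 := mkP (Real.sqrt (1 - hgt i ^ 2)) 0 (hgt i) (by
  rw [Real.sq_sqrt (by linarith [hgt_sq i])]
  ring)

theorem ht_pt (i : ℕ) : ht (pt i) = hgt i := rfl

theorem pt_inj : Function.Injective pt := by
  intro i j h
  apply hgt_inj
  rw [← ht_pt, ← ht_pt, h]

/-- the coefficient functions -/
def coe (M i : ℕ) (t : P1) : ℝ := (Lagrange.basis (Finset.range M) hgt i).eval (ht t)

theorem coe_self {M i : ℕ} (hi : i < M) : coe M i (pt i) = 1 := by
  unfold coe
  rw [ht_pt]
  exact Lagrange.eval_basis_self hgt_inj.injOn (Finset.mem_range.2 hi)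

theorem coe_ne {M i j : ℕ} (hj : j < M) (hij : i ≠ j) : coe M i (pt j) = 0 := by
  unfold coe
  rw [ht_pt]
  exact Lagrange.eval_basis_of_ne hij (Finset.mem_range.2 hj)

end Pool.Agent.KS6_95.RK
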