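import Mathlib
import Pool.Agent.KS6_95.RK.Ch

/-!
# Connecting two points by a chain of spheres
-/

open scoped Manifold ContDiff Topology
open Metric Set Bundle
open Pool.Agent.Helper206.Cover
open Pool.Agent.Helper206.Rat (SymplecticForm AlmostComplex IsCompatible IsHolomorphic
  RationalCurve)
open Pool.Agent.Helper449.RC (H2 H2map curveClass)

noncomputable section

namespace Pool.Agent.KS6_95.RK

attribute [local instance] factR3

theorem neg_ne_P1 (z : P1) : -z ≠ z := by
  intro h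
  have h2 := inner_self_P1 z
  have h3 : -((z : P1) : R3) = (z : R3) := by
    have := congrArg (fun z : P1 => (z : R3)) h
    simpa using this
  have h4 : ((z : P1) : R3) = 0 := by
    have h5 : (2 : ℝ) • ((z : P1) : R3) = 0 := by
      rw [two_smul]
      nth_rewrite 1 [← h3]
      simp
    exact (smul_eq_zero.1 h5).resolve_left two_ne_zero
  rw [h4, inner_zero_left] at h2
  exact zero_ne_one h2

theorem range_uH_ne_uV {Y : Type*} (p : P1 × Y) (t w : P1) (γ : ℝ → Y) :
    range (uH p) ≠ range (uV t w γ) := by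
  intro h
  have h1 : uH p (-t) ∈ range (uV t w γ) := h ▸ mem_range_self (-t)
  obtain ⟨s, hs⟩ := h1
  exact neg_ne_P1 t (congrArg Prod.fst hs).symm

theorem range_uH_inj {Y : Type*} {p p' : P1 × Y} (h : range (uH p) = range (uH p')) : p = p' := by
  have h1 : uH p p.1 ∈ range (uH p') := h ▸ mem_range_self p.1
  obtain ⟨s, hs⟩ := h1
  exact (congrArg Prod.snd hs).symm

theorem range_uV_inj {Y : Type*} {t t' w w' : P1} {γ γ' : ℝ → Y}
    (h : range (uV t w γ) = range (uV t' w' γ')) : t = t' := by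
  have h1 : uV t w γ w ∈ range (uV t' w' γ') := h ▸ mem_range_self w
  obtain ⟨s, hs⟩ := h1
  exact (congrArg Prod.fst hs).symm

variable {F : Type*} [NormedAddCommGroup F] [NormedSpace ℝ F] {H : Type*} [TopologicalSpace H]
  {I : ModelWithCorners ℝ F H} {Y : Type} [TopologicalSpace Y] [ChartedSpace H Y]

/-- the class of the chains -/
def Acl (m : ℕ) (y₀ : Y) (σ : H2 P1) : H2 (XY Y) :=
  ∑ a : Fin (2 * m + 1), if a.val % 2 = 0 then
    H2map ⟨uH ((pt 0, y₀) : P1 × Y), continuous_uH _⟩ σ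
    else H2map ⟨fun s : P1 => ((pt 0, (s, y₀)) : XY Y), continuous_const_uV _ _⟩ σ

variable [FiniteDimensional ℝ F] [I.Boundaryless] [IsManifold I ∞ Y]
  {Ω : SymplecticForm I Y} {K : AlmostComplex I Y} {W : P1 → VField I Y}

theorem exists_chain [PathConnectedSpace Y] (hW : SmoothFam W) (y₀ : Y) (m : ℕ) (w T : ℕ → P1)
    (yy : ℕ → Y) (g : ℕ → ℝ → Y)
    (h1 : ∀ k < m, Integral (W (T k)) (g k)) (h2 : ∀ k < m, g k 0 = yy k)
    (h3 : ∀ k < m, g k (ht (w (k + 1)) - ht (w k)) = yy (k + 1))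
    (h4 : ∀ k < m, w k ≠ w (k + 1))
    (h5 : ∀ k l, k < l → l ≤ m → ((w k, yy k) : P1 × Y) ≠ (w l, yy l))
    (h6 : ∀ k l, k < l → l < m → T k ≠ T l) :
    ∃ C : RationalCurve (I' := 𝓡 2) jP1 (KX Ω K hW), range (uH (w 0, yy 0)) ⊆ C.image ∧
      range (uH (w m, yy m)) ⊆ C.image ∧ C.n = 2 * m + 1 ∧
      (∀ a, Function.Injective (C.u a)) ∧ (∀ a b, a ≠ b → range (C.u a) ≠ range (C.u b)) ∧
      ∀ σ : H2 P1, curveClass C σ = Acl m y₀ σ := by
  let u : ℕ → P1 → XY Y := fun a => if a % 2 = 0 then uH (w (a / 2), yy (a / 2))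
    else uV (T (a / 2)) (w (a / 2)) (g (a / 2))
  let p : ℕ → P1 := fun a => if a % 2 = 0 then T (a / 2) else w (a / 2 + 1)
  let q : ℕ → P1 := fun a => if a % 2 = 0 then T (a / 2 - 1) else w (a / 2)
  have hu0 : ∀ a, a % 2 = 0 → u a = uH (w (a / 2), yy (a / 2)) := fun a ha => if_pos ha
  have hu1 : ∀ a, ¬ a % 2 = 0 → u a = uV (T (a / 2)) (w (a / 2)) (g (a / 2)) :=
    fun a ha => if_neg ha
  have hol : ∀ a ≤ 2 * m, IsHolomorphic (I' := 𝓡 2) jP1 (KX Ω K hW) (u a) := by
    intro a ha
    by_cases h : a % 2 = 0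
    · rw [hu0 a h]
      exact holomorphic_uH hW _
    · rw [hu1 a h]
      exact holomorphic_uV hW _ _ (h1 (a / 2) (by omega))
  have hinj : ∀ a, Function.Injective (u a) := by
    intro a
    by_cases h : a % 2 = 0
    · rw [hu0 a h]; exact uH_injective _
    · rw [hu1 a h]; exact uV_injective _ _ _
  have hran : ∀ a b, a < b → b ≤ 2 * m → range (u a) ≠ range (u b) := by
    intro a b hab hb
    by_cases ha : a % 2 = 0
    · by_cases hb' : b % 2 = 0
      · rw [hu0 a ha, hu0 b hb']
        intro h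
        exact h5 (a / 2) (b / 2) (by omega) (by omega) (range_uH_inj h)
      · rw [hu0 a ha, hu1 b hb']
        exact range_uH_ne_uV _ _ _ _
    · by_cases hb' : b % 2 = 0
      · rw [hu1 a ha, hu0 b hb']
        exact (range_uH_ne_uV _ _ _ _).symm
      · rw [hu1 a ha, hu1 b hb']
        intro h
        exact h6 (a / 2) (b / 2) (by omega) (by omega) (range_uV_inj h)
  have hne : ∀ a, 0 < a → a < 2 * m → p a ≠ q a := by
    intro a ha0 ha
    by_cases h : a % 2 = 0
    · show (if a % 2 = 0 then T (a / 2) else w (a / 2 + 1)) ≠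
        (if a % 2 = 0 then T (a / 2 - 1) else w (a / 2))
      rw [if_pos h, if_pos h]
      exact (h6 (a / 2 - 1) (a / 2) (by omega) (by omega)).symm
    · show (if a % 2 = 0 then T (a / 2) else w (a / 2 + 1)) ≠
        (if a % 2 = 0 then T (a / 2 - 1) else w (a / 2))
      rw [if_neg h, if_neg h]
      exact (h4 (a / 2) (by omega)).symm
  have heq : ∀ a, a < 2 * m → u a (p a) = u (a + 1) (q (a + 1)) := by
    intro a ha
    by_cases h : a % 2 = 0
    · have h' : ¬ (a + 1) % 2 = 0 := by omega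
      have hd : (a + 1) / 2 = a / 2 := by omega
      rw [hu0 a h, hu1 (a + 1) h']
      show uH (w (a / 2), yy (a / 2)) (if a % 2 = 0 then T (a / 2) else w (a / 2 + 1)) =
        uV (T ((a + 1) / 2)) (w ((a + 1) / 2)) (g ((a + 1) / 2))
          (if (a + 1) % 2 = 0 then T ((a + 1) / 2 - 1) else w ((a + 1) / 2))
      rw [if_pos h, if_neg h', hd, uV_self, h2 (a / 2) (by omega)]
      rfl
    · have h' : (a + 1) % 2 = 0 := by omega
      have hd : (a + 1) / 2 = a / 2 + 1 := by omega
      rw [hu1 a h, hu0 (a + 1) h']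
      show uV (T (a / 2)) (w (a / 2)) (g (a / 2))
        (if a % 2 = 0 then T (a / 2) else w (a / 2 + 1)) =
        uH (w ((a + 1) / 2), yy ((a + 1) / 2))
          (if (a + 1) % 2 = 0 then T ((a + 1) / 2 - 1) else w ((a + 1) / 2))
      rw [if_neg h, if_pos h', hd]
      show ((T (a / 2), (w (a / 2 + 1), g (a / 2) (ht (w (a / 2 + 1)) - ht (w (a / 2))))) : XY Y) =
        (T (a / 2 + 1 - 1), (w (a / 2 + 1), yy (a / 2 + 1)))
      rw [h3 (a / 2) (by omega), Nat.add_sub_cancel]
  let C : RationalCurve (I' := 𝓡 2) jP1 (KX Ω K hW) := pathCurve (2 * m) u p q hol hne heq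
    ⟨pt 0, pt 1, fun h => by
      have h1 := hinj 0 h
      exact absurd (pt_inj h1) (by norm_num)⟩
  refine ⟨C, ?_, ?_, rfl, ?_, ?_, ?_⟩
  · rintro x ⟨s, rfl⟩
    refine mem_iUnion.2 ⟨(⟨0, by omega⟩ : Fin (2 * m + 1)), s, ?_⟩
    show u 0 s = _
    rw [hu0 0 (by omega)]
  · rintro x ⟨s, rfl⟩
    refine mem_iUnion.2 ⟨(⟨2 * m, by omega⟩ : Fin (2 * m + 1)), s, ?_⟩
    show u (2 * m) s = _
    rw [hu0 (2 * m) (by omega)]
    have : 2 * m / 2 = m := by omega
    rw [this]
  · exact fun a => hinj a.val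
  · intro a b hab
    have ha := a.2
    have hb := b.2
    rcases lt_trichotomy a.val b.val with h | h | h
    · exact hran a.val b.val h (by have := b.2; exact Nat.lt_succ_iff.1 this)
    · exact absurd (Fin.ext h) hab
    · exact (hran b.val a.val h (by have := a.2; exact Nat.lt_succ_iff.1 this)).symm
  · intro σ
    show ∑ a : Fin (2 * m + 1), H2map ⟨u a.val, _⟩ σ = Acl m y₀ σ
    unfold Acl
    refine Finset.sum_congr rfl fun a _ => ?_
    have ha := a.2
    by_cases h : a.val % 2 = 0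
    · rw [if_pos h]
      have e : ∀ (v : P1 → XY Y) (hv : Continuous v), v = uH (w (a.val / 2), yy (a.val / 2)) →
          H2map ⟨v, hv⟩ σ = H2map ⟨uH ((pt 0, y₀) : P1 × Y), continuous_uH _⟩ σ := by
        rintro v hv rfl
        exact class_uH _ _ σ
      exact e _ _ (hu0 a.val h)
    · rw [if_neg h]
      have e : ∀ (v : P1 → XY Y) (hv : Continuous v),
          v = uV (T (a.val / 2)) (w (a.val / 2)) (g (a.val / 2)) →
          H2map ⟨v, hv⟩ σ = H2map ⟨fun s : P1 => ((pt 0, (s, y₀)) : XY Y),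
            continuous_const_uV _ _⟩ σ := by
        rintro v hv rfl
        exact class_uV _ _ (h1 (a.val / 2) (by omega)) _ _ σ
      exact e _ _ (hu1 a.val h)

/-! ### the family of fields -/

/-- the family of fields given by a list -/
def Wf (L : List (VField I Y)) (t : P1) : VField I Y := fun y =>
  (∑ k : Fin L.length, coe (3 * L.length + 1) (3 * k.val + 1) t • (L[k] y : F) : F)

omit [FiniteDimensional ℝ F] [I.Boundaryless] [IsManifold I ∞ Y] in
theorem smoothFam_Wf {L : List (VField I Y)} (hL : ∀ V ∈ L, SmoothVF V) : SmoothFam (Wf L) := by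
  intro t₀ x₀
  have h1 : ∀ e : E2 × F, vfInChart (Wf L ((extChartAt (𝓡 2) t₀).symm e.1)) x₀ e.2 =
      ∑ k : Fin L.length, coe (3 * L.length + 1) (3 * k.val + 1) ((extChartAt (𝓡 2) t₀).symm e.1) •
        vfInChart (L[k]) x₀ e.2 := by
    intro e
    show Sc I x₀ ((extChartAt I x₀).symm e.2) (∑ k : Fin L.length, coe (3 * L.length + 1)
      (3 * k.val + 1) ((extChartAt (𝓡 2) t₀).symm e.1) •
      (L[k] ((extChartAt I x₀).symm e.2) : F) : F) = _
    rw [map_sum]
    refine Finset.sum_congr rfl fun k _ => ?_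
    exact (Sc I x₀ ((extChartAt I x₀).symm e.2) : F →L[ℝ] F).map_smul _
      (L[k] ((extChartAt I x₀).symm e.2) : F)
  have h2 : (fun e : E2 × F => vfInChart (Wf L ((extChartAt (𝓡 2) t₀).symm e.1)) x₀ e.2) =
      fun e => ∑ k : Fin L.length, coe (3 * L.length + 1) (3 * k.val + 1)
        ((extChartAt (𝓡 2) t₀).symm e.1) • vfInChart (L[k]) x₀ e.2 := funext h1
  rw [h2]
  refine ContDiffOn.sum fun k _ => ?_
  have c1 : ContDiff ℝ ∞ (fun e : E2 => coe (3 * L.length + 1) (3 * k.val + 1)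
      ((extChartAt (𝓡 2) t₀).symm e)) := by
    have e1 : (fun e : E2 => coe (3 * L.length + 1) (3 * k.val + 1)
      ((extChartAt (𝓡 2) t₀).symm e)) = fun e => Polynomial.aeval (pr2 (Zc t₀ e))
        (Lagrange.basis (Finset.range (3 * L.length + 1)) hgt (3 * k.val + 1)) := by
      funext e
      rw [Polynomial.coe_aeval_eq_eval]
      rfl
    rw [e1]
    exact (Polynomial.contDiff_aeval _ _).comp (pr2.contDiff.comp (contDiff_Zc t₀))
  have c2 : ContDiffOn ℝ ∞ (vfInChart (L[k]) x₀) (extChartAt I x₀).target :=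
    hL (L[k]) (List.getElem_mem k.2) x₀
  have c3 : ContDiffOn ℝ ∞ (fun e : E2 × F => coe (3 * L.length + 1) (3 * k.val + 1)
      ((extChartAt (𝓡 2) t₀).symm e.1)) (univ ×ˢ (extChartAt I x₀).target) :=
    (c1.comp contDiff_fst).contDiffOn
  exact c3.smul (contDiffOn_snd' c2 fun e he => he.2)

omit [FiniteDimensional ℝ F] [I.Boundaryless] [IsManifold I ∞ Y] [TopologicalSpace Y]
  [ChartedSpace H Y] in
theorem sum_coe {M N i : ℕ} (hi : i < M) (v : Fin N → F) (hN : 3 * N + 1 ≤ M) :
    (∑ k : Fin N, coe M (3 * k.val + 1) (pt i) • v k) =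
      if h : i % 3 = 1 ∧ i / 3 < N then v ⟨i / 3, h.2⟩ else 0 := by
  by_cases h : i % 3 = 1 ∧ i / 3 < N
  · rw [dif_pos h]
    rw [Finset.sum_eq_single (⟨i / 3, h.2⟩ : Fin N)]
    · have h1 : 3 * (i / 3) + 1 = i := by omega
      show coe M (3 * (i / 3) + 1) (pt i) • _ = _
      rw [h1, coe_self hi, one_smul]
    · intro k _ hk
      have h1 : 3 * k.val + 1 ≠ i := by
        intro h1
        apply hk
        apply Fin.ext
        show k.val = i / 3
        omega
      rw [coe_ne hi h1, zero_smul]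
    · intro h'
      exact absurd (Finset.mem_univ _) h'
  · rw [dif_neg h]
    refine Finset.sum_eq_zero fun k _ => ?_
    have h1 : 3 * k.val + 1 ≠ i := by
      intro h1
      have := k.2
      exact h ⟨by omega, by omega⟩
    rw [coe_ne hi h1, zero_smul]

omit [FiniteDimensional ℝ F] [I.Boundaryless] [IsManifold I ∞ Y] in
theorem Wf_move (L : List (VField I Y)) {k : ℕ} (hk : k < L.length) :
    Wf L (pt (3 * k + 1)) = L[k] := by
  funext y
  have h := sum_coe (F := F) (M := 3 * L.length + 1) (N := L.length) (i := 3 * k + 1) (by omega)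
    (fun k => (L[k] y : F)) le_rfl
  have h1 : (3 * k + 1) % 3 = 1 ∧ (3 * k + 1) / 3 < L.length := ⟨by omega, by omega⟩
  rw [dif_pos h1] at h
  refine h.trans ?_
  have h2 : (3 * k + 1) / 3 = k := by omega
  have h3 : ∀ (m : ℕ) (hm : m < L.length), m = k → (L[m] y : F) = L[k] y := by
    rintro m hm rfl
    rfl
  exact h3 ((3 * k + 1) / 3) h1.2 h2

omit [FiniteDimensional ℝ F] [I.Boundaryless] [IsManifold I ∞ Y] in
theorem Wf_rest (L : List (VField I Y)) {i : ℕ} (hi : i < 3 * L.length + 1) (hi' : i % 3 ≠ 1) :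
    Wf L (pt i) = fun _ => (0 : F) := by
  funext y
  have h := sum_coe (F := F) (M := 3 * L.length + 1) (N := L.length) (i := i) hi
    (fun k => (L[k] y : F)) le_rfl
  rw [dif_neg (fun h => hi' h.1)] at h
  exact h

/-- two different points of `P1 × Y` give a chain -/
theorem exists_chain' [PathConnectedSpace Y] {L : List (VField I Y)} (hL : ∀ V ∈ L, SmoothVF V)
    (hL0 : 0 < L.length) (y₀ : Y) {z z' : P1} {y y' : Y} (hc : Conn L y y')
    (hne : ((z, y) : P1 × Y) ≠ (z', y')) :
    ∃ C : RationalCurve (I' := 𝓡 2) jP1 (KX Ω K (smoothFam_Wf hL)),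
      range (uH (z, y)) ⊆ C.image ∧ range (uH (z', y')) ⊆ C.image ∧
      C.n = 2 * (2 * L.length + 1) + 1 ∧
      (∀ a, Function.Injective (C.u a)) ∧ (∀ a b, a ≠ b → range (C.u a) ≠ range (C.u b)) ∧
      ∀ σ : H2 P1, curveClass C σ = Acl (2 * L.length + 1) y₀ σ := by
  classical
  set N := L.length with hN
  obtain ⟨ζ, hζ0, hζN, hζ⟩ := conn_seq hc
  rw [← hN] at hζN
  have hdat : ∀ k, ∃ (i : ℕ) (γ : ℝ → Y) (s : ℝ), |s| ≤ 1 / 2 ∧ (i = 3 * k + 1 ∨ i = 3 * k + 2) ∧
      (k < N → Integral (Wf L (pt i)) γ ∧ γ 0 = ζ k ∧ γ s = ζ (k + 1)) := by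
    intro k
    by_cases hk : k < N
    · rcases hζ k hk with h | h
      · refine ⟨3 * k + 2, fun _ => ζ k, 0, by norm_num, Or.inr rfl, fun _ => ⟨?_, rfl, h.symm⟩⟩
        rw [Wf_rest L (by omega) (by omega)]
        exact integral_zero (ζ k)
      · obtain ⟨γ, hγ1, hγ2, hγ3, s, hs1, hs2⟩ := h
        refine ⟨3 * k + 1, γ, s, hs1, Or.inl rfl, fun _ => ⟨?_, hγ3, hs2⟩⟩
        rw [Wf_move L hk]
        exact ⟨hγ1, hγ2⟩
    · exact ⟨3 * k + 1, fun _ => y, 0, by norm_num, Or.inl rfl, fun h => absurd h hk⟩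
  choose i γ s hs hi hd using hdat
  let h : ℕ → ℝ := fun j => if j % 2 = 0 then 0 else s (j / 2)
  have hh : ∀ j, |h j| ≤ 1 / 2 := by
    intro j
    show |if j % 2 = 0 then 0 else s (j / 2)| ≤ 1 / 2
    by_cases hj : j % 2 = 0
    · rw [if_pos hj]; norm_num
    · rw [if_neg hj]; exact hs _
  obtain ⟨w', hw1, hw2⟩ := exists_levels {z, z'} h hh (2 * N)
  have hwz : ∀ j < 2 * N, w' j ≠ z ∧ w' j ≠ z' := by
    intro j hj
    have := (hw1 j hj).2
    rw [Finset.mem_insert, Finset.mem_singleton, not_or] at this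
    exact this
  let w : ℕ → P1 := fun j => if j = 0 then z else if j = 2 * N + 1 then z' else w' (j - 1)
  have w0 : w 0 = z := if_pos rfl
  have wN : w (2 * N + 1) = z' := by
    show (if 2 * N + 1 = 0 then z else if 2 * N + 1 = 2 * N + 1 then z' else w' (2 * N + 1 - 1)) = z'
    rw [if_neg (by omega), if_pos rfl]
  have wj : ∀ j, 0 < j → j < 2 * N + 1 → w j = w' (j - 1) := by
    intro j h1 h2
    show (if j = 0 then z else if j = 2 * N + 1 then z' else w' (j - 1)) = _
    rw [if_neg (by omega), if_neg (by omega)]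
  let idx : ℕ → ℕ := fun j => if j % 2 = 0 then 3 * (j / 2) else i (j / 2)
  have idx_lt : ∀ j, idx j < idx (j + 1) := by
    intro j
    show (if j % 2 = 0 then 3 * (j / 2) else i (j / 2)) <
      (if (j + 1) % 2 = 0 then 3 * ((j + 1) / 2) else i ((j + 1) / 2))
    by_cases hj : j % 2 = 0
    · rw [if_pos hj, if_neg (by omega)]
      have := hi ((j + 1) / 2)
      omega
    · rw [if_neg hj, if_pos (by omega)]
      have := hi (j / 2)
      omega
  have idx_mono : StrictMono idx := strictMono_nat_of_lt_succ idx_lt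
  let T : ℕ → P1 := fun j => pt (idx j)
  let g : ℕ → ℝ → Y := fun j => if j % 2 = 0 then fun _ => ζ (j / 2) else γ (j / 2)
  have key := exists_chain (Ω := Ω) (K := K) (smoothFam_Wf hL) y₀ (2 * N + 1) w T
    (fun j => ζ (j / 2)) g ?_ ?_ ?_ ?_ ?_ ?_
  · obtain ⟨C, hC1, hC2, hC3, hC4, hC5, hC6⟩ := key
    refine ⟨C, ?_, ?_, hC3, hC4, hC5, hC6⟩
    · rw [w0] at hC1
      have : ζ (0 / 2) = y := hζ0
      rw [this] at hC1
      exact hC1
    · rw [wN] at hC2
      have e : (2 * N + 1) / 2 = N := by omega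
      have : ζ ((2 * N + 1) / 2) = y' := by rw [e]; exact hζN
      simp only [this] at hC2
      exact hC2
  · -- integral curves
    intro k hk
    by_cases hk2 : k % 2 = 0
    · have e1 : T k = pt (3 * (k / 2)) := by
        show pt (if k % 2 = 0 then 3 * (k / 2) else i (k / 2)) = _
        rw [if_pos hk2]
      have e2 : g k = fun _ => ζ (k / 2) := if_pos hk2
      rw [e1, e2, Wf_rest L (by omega) (by omega)]
      exact integral_zero _
    · have e1 : T k = pt (i (k / 2)) := by
        show pt (if k % 2 = 0 then 3 * (k / 2) else i (k / 2)) = _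
        rw [if_neg hk2]
      have e2 : g k = γ (k / 2) := if_neg hk2
      rw [e1, e2]
      exact (hd (k / 2) (by omega)).1
  · intro k hk
    by_cases hk2 : k % 2 = 0
    · have e2 : g k = fun _ => ζ (k / 2) := if_pos hk2
      rw [e2]
    · have e2 : g k = γ (k / 2) := if_neg hk2
      rw [e2]
      exact (hd (k / 2) (by omega)).2.1
  · intro k hk
    by_cases hk2 : k % 2 = 0
    · have e2 : g k = fun _ => ζ (k / 2) := if_pos hk2
      rw [e2]
      show ζ (k / 2) = ζ ((k + 1) / 2)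
      congr 1
      omega
    · have e2 : g k = γ (k / 2) := if_neg hk2
      rw [e2, wj (k + 1) (by omega) (by omega), wj k (by omega) (by omega),
        (hw1 (k + 1 - 1) (by omega)).1, (hw1 (k - 1) (by omega)).1]
      show γ (k / 2) ((if (k + 1 - 1) % 2 = 0 then 0 else s ((k + 1 - 1) / 2)) -
        (if (k - 1) % 2 = 0 then 0 else s ((k - 1) / 2))) = ζ ((k + 1) / 2)
      rw [if_neg (by omega), if_pos (by omega), sub_zero, Nat.add_sub_cancel,
        (hd (k / 2) (by omega)).2.2]
      congr 1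
      omega
  · intro k hk
    rcases Nat.eq_zero_or_pos k with rfl | hk0
    · rw [w0, wj 1 (by omega) (by omega)]
      exact (hwz 0 (by omega)).1.symm
    · rcases Nat.lt_or_ge (k + 1) (2 * N + 1) with hk1 | hk1
      · rw [wj k hk0 (by omega), wj (k + 1) (by omega) hk1]
        exact hw2 (k - 1) (k + 1 - 1) (by omega) (by omega)
      · have e : k + 1 = 2 * N + 1 := by omega
        rw [e, wN, wj k hk0 (by omega)]
        exact (hwz (k - 1) (by omega)).2
  · intro k l hkl hl
    rcases Nat.eq_zero_or_pos k with rfl | hk0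
    · rcases Nat.lt_or_ge l (2 * N + 1) with hl1 | hl1
      · rw [w0, wj l hkl hl1]
        intro h
        exact (hwz (l - 1) (by omega)).1.symm (congrArg Prod.fst h)
      · have e : l = 2 * N + 1 := by omega
        subst e
        rw [w0, wN]
        have e : (2 * N + 1) / 2 = N := by omega
        have e1 : ζ ((2 * N + 1) / 2) = y' := by rw [e]; exact hζN
        have e2 : ζ (0 / 2) = y := hζ0
        simp only [e1, e2]
        exact hne
    · rcases Nat.lt_or_ge l (2 * N + 1) with hl1 | hl1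
      · rw [wj k hk0 (by omega), wj l (by omega) hl1]
        intro h
        exact hw2 (k - 1) (l - 1) (by omega) (by omega) (congrArg Prod.fst h)
      · have e : l = 2 * N + 1 := by omega
        subst e
        rw [wN, wj k hk0 (by omega)]
        intro h
        exact (hwz (k - 1) (by omega)).2 (congrArg Prod.fst h)
  · intro k l hkl _ h
    exact (idx_mono hkl).ne (pt_inj h)

end Pool.Agent.KS6_95.RK
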