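import Mathlib
import Pool.Graph.R_pool_sql_team_668148b0.Helper427.Tri.SphereSC
import Pool.Graph.R_seed8.Helper206.Cover.Defs

/-!
# Fundamental groups
-/

open Metric Set
open scoped unitInterval
open Pool.Agent.Helper206.Cover (R3 P1)

noncomputable section

namespace Pool.Agent.KS6_95.RK

theorem simplyConnected_P1 : SimplyConnectedSpace P1 :=
  Pool.Agent.Helper427.Tri.simplyConnected_sphere (E := R3) (by simp)

/-- a simply connected factor does not change the fundamental group -/
theorem pi1_prod (A Y : Type*) [TopologicalSpace A] [TopologicalSpace Y] [SimplyConnectedSpace A]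
    (x : A × Y) : Nonempty (FundamentalGroup (A × Y) x ≃* FundamentalGroup Y x.2) := by
  let f : C(A × Y, Y) := ⟨Prod.snd, continuous_snd⟩
  refine ⟨MulEquiv.ofBijective (FundamentalGroup.map f x) ⟨?_, ?_⟩⟩
  · intro p q h
    obtain ⟨a, y⟩ := x
    have h1 : Path.Homotopic.projRight (p : Path.Homotopic.Quotient (a, y) (a, y)) =
      Path.Homotopic.projRight (q : Path.Homotopic.Quotient (a, y) (a, y)) := h
    have h2 : Path.Homotopic.projLeft (p : Path.Homotopic.Quotient (a, y) (a, y)) =
      Path.Homotopic.projLeft (q : Path.Homotopic.Quotient (a, y) (a, y)) :=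
      Subsingleton.elim (α := Path.Homotopic.Quotient a a) _ _
    have h3 := Path.Homotopic.prod_projLeft_projRight
      (p : Path.Homotopic.Quotient (a, y) (a, y))
    have h4 := Path.Homotopic.prod_projLeft_projRight
      (q : Path.Homotopic.Quotient (a, y) (a, y))
    rw [h1, h2, h4] at h3
    exact h3.symm
  · intro q
    obtain ⟨a, y⟩ := x
    refine ⟨Path.Homotopic.prod (Path.Homotopic.Quotient.refl a)
      (q : Path.Homotopic.Quotient y y), ?_⟩
    exact Path.Homotopic.projRight_prod _ _

theorem pi1_X (Y : Type*) [TopologicalSpace Y] (x : P1 × (P1 × Y)) :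
    Nonempty (FundamentalGroup (P1 × (P1 × Y)) x ≃* FundamentalGroup Y x.2.2) := by
  have := simplyConnected_P1
  obtain ⟨e1⟩ := pi1_prod P1 (P1 × Y) x
  obtain ⟨e2⟩ := pi1_prod P1 Y x.2
  exact ⟨e1.trans e2⟩

/-- a space with loops which wind around the circle has an infinite fundamental group -/
theorem infinite_pi1 {Y : Type*} [TopologicalSpace Y] (y : Y) (pr : C(Y, AddCircle (1 : ℝ)))
    (c : ℝ) (lp : ℤ → Path y y)
    (h : ∀ (n : ℤ) (s : I), pr (lp n s) = ((c + (s : ℝ) * n : ℝ) : AddCircle (1 : ℝ))) :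
    Infinite (FundamentalGroup Y y) := by
  have cov := AddCircle.isCoveringMap_coe (1 : ℝ)
  let lft : ℤ → C(I, ℝ) := fun n => ⟨fun s => c + (s : ℝ) * n, by fun_prop⟩
  refine Infinite.of_injective (fun n : ℤ => FundamentalGroup.fromPath
    (Path.Homotopic.Quotient.mk (lp n))) ?_
  intro n m hnm
  have h0 : Path.Homotopic.Quotient.mk (lp n) = Path.Homotopic.Quotient.mk (lp m) := hnm
  have hh : (lp n).Homotopic (lp m) := Path.Homotopic.Quotient.eq.1 h0
  have h1 := hh.map pr
  have hl0 : ∀ k : ℤ, lft k 0 = c := by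
    intro k
    show c + ((0 : I) : ℝ) * k = c
    simp
  have h2 : ∀ k : ℤ, ∀ h₀, lft k =
      cov.liftPath ((lp k).map pr.continuous).toContinuousMap c h₀ := by
    intro k h₀
    rw [cov.eq_liftPath_iff']
    refine ⟨?_, hl0 k⟩
    funext s
    exact (h k s).symm
  have hs : ∀ k : ℤ, ((lp k).map pr.continuous).toContinuousMap 0
      = ((c : ℝ) : AddCircle (1 : ℝ)) := by
    intro k
    rw [← hl0 k]
    exact h k 0
  have h3 := cov.liftPath_apply_one_eq_of_homotopicRel h1 c (hs n) (hs m)
  have h4 : lft n 1 = lft m 1 := by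
    rw [h2 n (hs n), h2 m (hs m)]
    exact h3
  have h5 : c + ((1 : I) : ℝ) * n = c + ((1 : I) : ℝ) * m := h4
  simpa using h5

end Pool.Agent.KS6_95.RK
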