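import Mathlib
import Pool.Agent.KS6_95.RK.Prod
import Pool.Agent.KS6_95.RK.Pi

/-!
# Tori
-/

open scoped Manifold ContDiff Topology
open Metric Set Bundle
open Pool.Agent.Helper206.Cover (BilinField EndoField formInChart endoInChart)
open Pool.Agent.Helper206.Rat (SymplecticForm AlmostComplex IsCompatible)

noncomputable section

namespace Pool.Agent.KS6_95.RK

variable {n : ℕ}

/-- Euclidean space -/
abbrev En (n : ℕ) : Type := EuclideanSpace ℝ (Fin n)

/-- The torus of dimension `n`. -/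
def Tn (n : ℕ) : Type := Fin n → AddCircle (1 : ℝ)

instance : TopologicalSpace (Tn n) := inferInstanceAs (TopologicalSpace (Fin n → AddCircle (1 : ℝ)))
instance : CompactSpace (Tn n) := inferInstanceAs (CompactSpace (Fin n → AddCircle (1 : ℝ)))
instance : T2Space (Tn n) := inferInstanceAs (T2Space (Fin n → AddCircle (1 : ℝ)))
instance : ConnectedSpace (Tn n) := inferInstanceAs (ConnectedSpace (Fin n → AddCircle (1 : ℝ)))

/-- The projection `(En n) → (Tn n)`. -/
def toTn (x : (En n)) : (Tn n) := fun i => ((x i : ℝ) : AddCircle (1 : ℝ))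

/-- The restriction of the projection `(En n) → (Tn n)` to the open square of side `1` centred at `a`. -/
def cubeTn (a : (En n)) : OpenPartialHomeomorph (En n) (Tn n) :=
  (PiLp.homeomorph 2 (fun _ : Fin n => ℝ)).toOpenPartialHomeomorph.trans
    (OpenPartialHomeomorph.pi fun i : Fin n =>
      AddCircle.openPartialHomeomorphCoe (1 : ℝ) (a i - 1 / 2))

/-- A lift of a point of `(Tn n)` to `(En n)`. -/
def liftTn (p : (Tn n)) : (En n) := WithLp.toLp 2 fun i => ((AddCircle.equivIco (1 : ℝ) 0 (p i) : ℝ))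

theorem toTn_liftTn (p : (Tn n)) : toTn (liftTn p) = p := by
  funext i
  exact (AddCircle.equivIco (1 : ℝ) 0).symm_apply_apply (p i)

theorem cubeTn_apply (a x : (En n)) : cubeTn a x = toTn x := rfl

theorem cubeTn_source (a : (En n)) :
    (cubeTn a).source = {x | ∀ i, a i - 1 / 2 < x i ∧ x i < a i - 1 / 2 + 1} := by
  ext x
  constructor
  · rintro ⟨-, h⟩ i
    exact h i trivial
  · intro h
    exact ⟨trivial, fun i _ => h i⟩

/-- The smooth structure of the torus: the charts are the local inverses of `(En n) → (Tn n)`. -/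
instance : ChartedSpace (En n) (Tn n) where
  atlas := {e | ∃ a : (En n), e = (cubeTn a).symm}
  chartAt p := (cubeTn (liftTn p)).symm
  mem_chart_source p := by
    have h : liftTn p ∈ (cubeTn (liftTn p)).source := by
      rw [cubeTn_source]; intro i; constructor <;> linarith
    have := (cubeTn (liftTn p)).map_source h
    rw [cubeTn_apply, toTn_liftTn] at this
    exact this
  chart_mem_atlas p := ⟨_, rfl⟩

theorem chartAt_Tn (p : (Tn n)) : chartAt (En n) p = (cubeTn (liftTn p)).symm := rfl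

theorem extChartAt_Tn_symm (p : (Tn n)) : ((extChartAt 𝓘(ℝ, (En n)) p).symm : (En n) → (Tn n)) = toTn := by
  funext x
  simp [extChartAt, chartAt_Tn, cubeTn_apply]

/-- Near a point `x` the chart at `p₀` composed with the projection is a translation. -/
theorem chartTn_comp_toTn (a x : (En n)) (hx : toTn x ∈ (cubeTn a).target) :
    ∃ k : (En n), ∀ᶠ y in 𝓝 x, (cubeTn a).symm (toTn y) = y + k := by
  set z : (En n) := (cubeTn a).symm (toTn x) with hz
  have hzs : z ∈ (cubeTn a).source := (cubeTn a).map_target hx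
  have hzx : toTn z = toTn x := by
    rw [← cubeTn_apply a z]
    exact (cubeTn a).right_inv hx
  refine ⟨z - x, ?_⟩
  have hcont : Continuous fun y : (En n) => y + (z - x) := continuous_id.add continuous_const
  have hmem : (fun y : (En n) => y + (z - x)) x ∈ (cubeTn a).source := by
    have : x + (z - x) = z := by abel
    change x + (z - x) ∈ (cubeTn a).source
    rw [this]
    exact hzs
  have hev : ∀ᶠ y in 𝓝 x, y + (z - x) ∈ (cubeTn a).source :=
    hcont.continuousAt.preimage_mem_nhds ((cubeTn a).open_source.mem_nhds hmem)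
  filter_upwards [hev] with y hy
  have hyt : toTn y = toTn (y + (z - x)) := by
    funext i
    have hi : ((z i : ℝ) : AddCircle (1 : ℝ)) = ((x i : ℝ) : AddCircle (1 : ℝ)) := congrFun hzx i
    change ((y i : ℝ) : AddCircle (1 : ℝ)) = (((y + (z - x)) i : ℝ) : AddCircle (1 : ℝ))
    have : (y + (z - x)) i = y i + (z i - x i) := rfl
    rw [this, AddCircle.coe_add, AddCircle.coe_sub, hi, sub_self, add_zero]
  rw [hyt, ← cubeTn_apply a]
  exact (cubeTn a).left_inv hy

instance : IsManifold 𝓘(ℝ, (En n)) ∞ (Tn n) := by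
  apply isManifold_of_contDiffOn
  rintro e e' ⟨a, rfl⟩ ⟨b, rfl⟩
  intro x hx
  have hx1 : x ∈ ((cubeTn a).symm.symm ≫ₕ (cubeTn b).symm).source := hx.1
  have hx2 : toTn x ∈ (cubeTn b).target := by
    have h1 := hx1.2
    exact h1
  obtain ⟨k, hk⟩ := chartTn_comp_toTn b x hx2
  have h2 : ContDiffAt ℝ ∞ (fun y : (En n) => y + k) x := contDiffAt_id.add contDiffAt_const
  have h3 : ContDiffAt ℝ ∞ (fun y : (En n) => (cubeTn b).symm (toTn y)) x :=
    h2.congr_of_eventuallyEq hk
  exact h3.contDiffWithinAt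

theorem contMDiff_toTn : ContMDiff 𝓘(ℝ, (En n)) 𝓘(ℝ, (En n)) ∞ (toTn : En n → Tn n) := by
  intro x
  have hmem : (cubeTn x).symm ∈ atlas (En n) (Tn n) := ⟨x, rfl⟩
  have hmax : (cubeTn x).symm ∈ IsManifold.maximalAtlas 𝓘(ℝ, (En n)) ∞ (Tn n) :=
    IsManifold.subset_maximalAtlas hmem
  have h1 := contMDiffOn_symm_of_mem_maximalAtlas hmax
  have hxs : x ∈ (cubeTn x).source := by
    rw [cubeTn_source]; intro i; constructor <;> linarith
  exact h1.contMDiffAt ((cubeTn x).open_source.mem_nhds hxs)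

theorem mfderiv_toTn (x : (En n)) :
    mfderiv 𝓘(ℝ, (En n)) 𝓘(ℝ, (En n)) toTn x = (ContinuousLinearMap.id ℝ (En n) : (En n) →L[ℝ] (En n)) := by
  apply HasMFDerivAt.mfderiv
  refine ⟨(contMDiff_toTn x).continuousAt, ?_⟩
  obtain ⟨k, hk⟩ := chartTn_comp_toTn (liftTn (toTn x)) x
    (mem_chart_source (En n) (toTn x))
  have h1 : HasFDerivAt (fun y : (En n) => y + k) (ContinuousLinearMap.id ℝ (En n)) x :=
    (hasFDerivAt_id x).add_const k
  have h2 : HasFDerivAt (fun y : (En n) => (cubeTn (liftTn (toTn x))).symm (toTn y))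
      (ContinuousLinearMap.id ℝ (En n)) x := h1.congr_of_eventuallyEq hk
  exact h2.hasFDerivWithinAt

theorem mfderiv_extChartAt_Tn (p₀ p : (Tn n)) (hp : p ∈ (extChartAt 𝓘(ℝ, (En n)) p₀).source) :
    mfderiv 𝓘(ℝ, (En n)) 𝓘(ℝ, (En n)) (extChartAt 𝓘(ℝ, (En n)) p₀) p
      = (ContinuousLinearMap.id ℝ (En n) : (En n) →L[ℝ] (En n)) := by
  apply HasMFDerivAt.mfderiv
  refine ⟨continuousAt_extChartAt' hp, ?_⟩
  have hp2 : p ∈ (cubeTn (liftTn p₀)).target := by
    rw [extChartAt_source] at hp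
    exact hp
  set x : (En n) := (extChartAt 𝓘(ℝ, (En n)) p) p with hx
  have hxp : toTn x = p := by
    rw [← extChartAt_Tn_symm p]
    exact (extChartAt 𝓘(ℝ, (En n)) p).left_inv (mem_extChartAt_source p)
  obtain ⟨k, hk⟩ := chartTn_comp_toTn (liftTn p₀) x (by rw [hxp]; exact hp2)
  have h1 : HasFDerivAt (fun y : (En n) => y + k) (ContinuousLinearMap.id ℝ (En n)) x :=
    (hasFDerivAt_id x).add_const k
  have h2 : HasFDerivAt (fun y : (En n) => (cubeTn (liftTn p₀)).symm (toTn y))
      (ContinuousLinearMap.id ℝ (En n)) x := h1.congr_of_eventuallyEq hk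
  have h3 : (writtenInExtChartAt 𝓘(ℝ, (En n)) 𝓘(ℝ, (En n)) p (extChartAt 𝓘(ℝ, (En n)) p₀) : (En n) → (En n)) =
      fun y : (En n) => (cubeTn (liftTn p₀)).symm (toTn y) := by
    funext y
    simp only [writtenInExtChartAt, Function.comp, extChartAt_Tn_symm]
    rfl
  rw [h3]
  exact h2.hasFDerivWithinAt


/-! ### the product of two tori -/

/-- the symplectic torus of dimension `2 n` -/
abbrev Y2 (n : ℕ) : Type := Tn n × Tn n

/-- its model -/
abbrev IY2 (n : ℕ) : ModelWithCorners ℝ (En n × En n) (ModelProd (En n) (En n)) :=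
  𝓘(ℝ, En n).prod 𝓘(ℝ, En n)

theorem Tc_Tn (p₀ : Tn n) (e v : En n) : Tc 𝓘(ℝ, En n) p₀ e v = v := by
  unfold Tc
  rw [extChartAt_Tn_symm, mfderiv_toTn]
  rfl

theorem Sc_Tn (p₀ p : Tn n) (hp : p ∈ (extChartAt 𝓘(ℝ, En n) p₀).source) (v : En n) :
    Sc 𝓘(ℝ, En n) p₀ p v = v := by
  have h := mfderiv_extChartAt_Tn p₀ p hp
  exact congrArg (fun L : En n →L[ℝ] En n => L v) h

theorem Tc_Y2 (x₀ : Y2 n) {e : En n × En n} (he : e ∈ (extChartAt (IY2 n) x₀).target)
    (v : En n × En n) : Tc (IY2 n) x₀ e v = v := by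
  rw [Tc_prod x₀ he, Tc_Tn, Tc_Tn]

theorem Sc_Y2 (x₀ : Y2 n) {x : Y2 n} (hx : x ∈ (extChartAt (IY2 n) x₀).source)
    (v : En n × En n) : Sc (IY2 n) x₀ x v = v := by
  have h := (mem_source_prod x₀ x).1 hx
  rw [Sc_prod x₀ hx, Sc_Tn _ _ h.1, Sc_Tn _ _ h.2]

/-- the standard form `(a, b), (a', b') ↦ ⟨a, b'⟩ - ⟨b, a'⟩` -/
def stdForm (n : ℕ) : En n × En n →L[ℝ] En n × En n →L[ℝ] ℝ :=
  (innerSL ℝ (E := En n)).bilinearComp (ContinuousLinearMap.fst ℝ (En n) (En n))
    (ContinuousLinearMap.snd ℝ (En n) (En n)) -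
  (innerSL ℝ (E := En n)).bilinearComp (ContinuousLinearMap.snd ℝ (En n) (En n))
    (ContinuousLinearMap.fst ℝ (En n) (En n))

theorem stdForm_apply (v w : En n × En n) :
    stdForm n v w = inner ℝ v.1 w.2 - inner ℝ v.2 w.1 := rfl

/-- the standard complex structure `(a, b) ↦ (-b, a)` -/
def stdJ (n : ℕ) : En n × En n →L[ℝ] En n × En n :=
  (-(ContinuousLinearMap.snd ℝ (En n) (En n))).prod (ContinuousLinearMap.fst ℝ (En n) (En n))

theorem stdJ_apply (v : En n × En n) : stdJ n v = (-v.2, v.1) := rfl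

theorem stdForm_pos (v : En n × En n) (hv : v ≠ 0) : 0 < stdForm n v (stdJ n v) := by
  rw [stdForm_apply, stdJ_apply]
  show 0 < inner ℝ v.1 v.1 - inner ℝ v.2 (-v.2)
  rw [inner_neg_right, real_inner_self_eq_norm_sq, real_inner_self_eq_norm_sq]
  by_cases h1 : v.1 = 0
  · have h2 : v.2 ≠ 0 := fun h => hv (Prod.ext h1 h)
    have := norm_pos_iff.2 h2
    have h3 : 0 < ‖v.2‖ ^ 2 := by positivity
    have h4 : 0 ≤ ‖v.1‖ ^ 2 := by positivity
    linarith
  · have := norm_pos_iff.2 h1
    have h3 : 0 < ‖v.1‖ ^ 2 := by positivity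
    have h4 : 0 ≤ ‖v.2‖ ^ 2 := by positivity
    linarith

/-- the symplectic form of the torus -/
def stdO (n : ℕ) : SymplecticForm (IY2 n) (Y2 n) where
  form := fun _ => (stdForm n : En n × En n →L[ℝ] En n × En n →L[ℝ] ℝ)
  alt := by
    intro x v
    show inner ℝ (v : En n × En n).1 (v : En n × En n).2 -
      inner ℝ (v : En n × En n).2 (v : En n × En n).1 = (0 : ℝ)
    rw [real_inner_comm, sub_self]
  smooth := by
    intro x₀
    refine (contDiffOn_const (c := stdForm n)).congr fun e he => ?_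
    refine ContinuousLinearMap.ext fun v => ContinuousLinearMap.ext fun w => ?_
    rw [formInChart_apply, Tc_Y2 x₀ he, Tc_Y2 x₀ he]
    rfl
  closed := by
    intro x₀ e he a b c
    have heq : formInChart (I := IY2 n) (X := Y2 n)
        (fun _ => (stdForm n : En n × En n →L[ℝ] En n × En n →L[ℝ] ℝ)) x₀ =ᶠ[𝓝 e]
        fun _ => stdForm n := by
      filter_upwards [(isOpen_extChartAt_target (I := IY2 n) x₀).mem_nhds he] with e' he'
      refine ContinuousLinearMap.ext fun v => ContinuousLinearMap.ext fun w => ?_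
      rw [formInChart_apply, Tc_Y2 x₀ he', Tc_Y2 x₀ he']
      rfl
    rw [heq.fderiv_eq]
    simp
  nondegenerate := by
    intro x v hv
    by_contra hne
    exact (stdForm_pos (v : En n × En n) hne).ne' (hv (stdJ n (v : En n × En n)))

/-- the complex structure of the torus -/
def stdK (n : ℕ) : AlmostComplex (IY2 n) (Y2 n) where
  J := fun _ => (stdJ n : En n × En n →L[ℝ] En n × En n)
  smooth := by
    intro x₀
    refine (contDiffOn_const (c := stdJ n)).congr fun e he => ?_
    refine ContinuousLinearMap.ext fun v => ?_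
    rw [endoInChart_apply, Tc_Y2 x₀ he, Sc_Y2 x₀ ((extChartAt (IY2 n) x₀).map_target he)]
    rfl
  sq := by
    intro x v
    show ((-(v : En n × En n).1, -(v : En n × En n).2) : En n × En n) = _
    rfl

theorem compatible_std (n : ℕ) : IsCompatible (stdO n) (stdK n) := by
  constructor
  · intro x v w
    show (inner ℝ (-(v : En n × En n).2) (w : En n × En n).1 : ℝ)
      - inner ℝ (v : En n × En n).1 (-(w : En n × En n).2) =
      inner ℝ (v : En n × En n).1 (w : En n × En n).2
        - inner ℝ (v : En n × En n).2 (w : En n × En n).1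
    rw [inner_neg_left, inner_neg_right]
    ring
  · intro x v hv
    exact stdForm_pos (v : En n × En n) hv

/-- the torus has an infinite fundamental group -/
theorem infinite_pi1_Y2 (hn : 0 < n) (y : Y2 n) : Infinite (FundamentalGroup (Y2 n) y) := by
  obtain ⟨p, q⟩ := y
  obtain ⟨c, rfl⟩ : ∃ c, toTn c = p := ⟨liftTn p, toTn_liftTn p⟩
  let i₀ : Fin n := ⟨0, hn⟩
  have hcont : Continuous (fun y : Y2 n => (y.1 : Fin n → AddCircle (1 : ℝ)) i₀) := by
    have h : Continuous (fun w : Tn n => (w : Fin n → AddCircle (1 : ℝ)) i₀) := continuous_apply i₀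
    exact h.comp continuous_fst
  let l : ℤ → ℝ → En n := fun k s => c + (s * k) • (EuclideanSpace.single i₀ (1 : ℝ))
  have hl : ∀ k, Continuous (l k) := by
    intro k
    show Continuous fun s : ℝ => c + (s * k) • (EuclideanSpace.single i₀ (1 : ℝ))
    fun_prop
  have hl0 : ∀ k, l k 0 = c := by
    intro k
    show c + ((0 : ℝ) * k) • (EuclideanSpace.single i₀ (1 : ℝ)) = c
    rw [zero_mul, zero_smul, add_zero]
  have hl1 : ∀ k, toTn (l k 1) = toTn c := by
    intro k
    funext i
    show (((c i + ((((1 : ℝ) * (k : ℝ)) • (EuclideanSpace.single i₀ (1 : ℝ)) : En n) i) : ℝ))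
      : AddCircle (1 : ℝ)) = ((c i : ℝ) : AddCircle (1 : ℝ))
    rw [AddCircle.coe_add]
    have : (((((1 : ℝ) * (k : ℝ)) • (EuclideanSpace.single i₀ (1 : ℝ)) : En n) i : ℝ)
        : AddCircle (1 : ℝ)) = 0 := by
      rw [AddCircle.coe_eq_zero_iff]
      by_cases hi : i = i₀
      · exact ⟨k, by simp [hi]⟩
      · exact ⟨0, by simp [hi]⟩
    rw [this, add_zero]
  refine infinite_pi1 _ ⟨_, hcont⟩ (c i₀) (fun k =>
    { toFun := fun s => (toTn (l k (s : ℝ)), q)
      continuous_toFun := (contMDiff_toTn.continuous.comp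
        ((hl k).comp continuous_subtype_val)).prodMk continuous_const
      source' := by
        show (toTn (l k ((0 : unitInterval) : ℝ)), q) = _
        rw [show ((0 : unitInterval) : ℝ) = 0 from rfl, hl0]
      target' := by
        show (toTn (l k ((1 : unitInterval) : ℝ)), q) = _
        rw [show ((1 : unitInterval) : ℝ) = 1 from rfl, hl1] }) ?_
  intro k s
  show (((c i₀ + ((((s : ℝ) * (k : ℝ)) • (EuclideanSpace.single i₀ (1 : ℝ)) : En n) i₀) : ℝ))
      : AddCircle (1 : ℝ)) = _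
  congr 1
  simp

end Pool.Agent.KS6_95.RK
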